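import Pool.Agent.H71PR.Reg
import Pool.Agent.H68K.PR.StmW

/-!
# The regions of bounded height, for all heights (S_REGW)
-/

set_option autoImplicit false
set_option linter.all false

open Polynomial NumberField NumberField.InfinitePlace
open Pool.Agent.N783.PF (Bd sp Dp)
open Pool.Agent.H64.PR
open Pool.Agent.H68K.PR
open scoped Classical

namespace Pool.Agent.H71PR

/-- From balanced boxes to the regions, for any property which is invariant under the units, with an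
absolute bound for the exceptions. -/
theorem hgtA (F : Type) [Field F] [NumberField F] : ∃ D C₀ : ℝ, 0 < D ∧ 0 < C₀ ∧
    ∀ (N : ℕ) (a b : 𝓞 F) (c ε : ℝ)
    (Q : 𝓞 F × 𝓞 F → Prop), 0 < N → 0 < c → 0 < ε → (∀ (u : (𝓞 F)ˣ) p, Q p → Q (um u p)) →
    (∀ u : (𝓞 F)ˣ, ∃ B₀ : ℕ, ∀ B ≥ B₀,
    c * (B : ℝ) ^ (5 * Module.finrank ℚ F) ≤
      ({p : 𝓞 F × 𝓞 F | Bd (p.1 : F) ((B : ℝ) ^ 2) ∧ Bd (p.2 : F) ((B : ℝ) ^ 3) ∧
        InFam N ((u : 𝓞 F) ^ 4 * a) ((u : 𝓞 F) ^ 6 * b) p}.ncard : ℝ) ∧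
    ({p : 𝓞 F × 𝓞 F | Bd (p.1 : F) ((B : ℝ) ^ 2) ∧ Bd (p.2 : F) ((B : ℝ) ^ 3) ∧
        InFam N ((u : 𝓞 F) ^ 4 * a) ((u : 𝓞 F) ^ 6 * b) p ∧ ¬ Q p}.ncard : ℝ) ≤
      ε / D * (c * (B : ℝ) ^ (5 * Module.finrank ℚ F))) →
    ∃ L₀ : ℝ, ∀ (r : InfinitePlace F → ℝ) (l : ℝ), (∀ v, 0 < r v) →
    l ^ Module.finrank ℚ F = ∏ v, r v ^ v.mult → L₀ ≤ l →
    c / C₀ * l ^ (10 * Module.finrank ℚ F) ≤
      ({p : 𝓞 F × 𝓞 F | p ∈ RG r ∧ InFam N a b p}.ncard : ℝ) ∧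
    ({p : 𝓞 F × 𝓞 F | p ∈ RG r ∧ InFam N a b p ∧ ¬ Q p}.ncard : ℝ) ≤
      ε * (c * l ^ (10 * Module.finrank ℚ F)) := by
  obtain ⟨C, hC, hU⟩ := unb F
  obtain ⟨K, hK, hbx⟩ := bx_fin F
  have hC0 : 0 < C := zero_lt_one.trans_le hC
  set d : ℕ := Module.finrank ℚ F with hd
  have hd0 : 0 < d := Module.finrank_pos
  refine ⟨(2 * C ^ 2) ^ (5 * d), (2 * C ^ 2) ^ (5 * d), by positivity, by positivity, ?_⟩
  intro N a b c ε Q hN hc hε hQ hc1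
  obtain ⟨B₀, hB⟩ := unif (F := F) hN (fun u B =>
    c * (B : ℝ) ^ (5 * Module.finrank ℚ F) ≤
      ({p : 𝓞 F × 𝓞 F | Bd (p.1 : F) ((B : ℝ) ^ 2) ∧ Bd (p.2 : F) ((B : ℝ) ^ 3) ∧
        InFam N ((u : 𝓞 F) ^ 4 * a) ((u : 𝓞 F) ^ 6 * b) p}.ncard : ℝ) ∧
    ({p : 𝓞 F × 𝓞 F | Bd (p.1 : F) ((B : ℝ) ^ 2) ∧ Bd (p.2 : F) ((B : ℝ) ^ 3) ∧
        InFam N ((u : 𝓞 F) ^ 4 * a) ((u : 𝓞 F) ^ 6 * b) p ∧ ¬ Q p}.ncard : ℝ) ≤
      ε / (2 * C ^ 2) ^ (5 * d) * (c * (B : ℝ) ^ (5 * Module.finrank ℚ F))) (by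
    intro u w huw B h
    have e1 : ∀ p, InFam N ((u : 𝓞 F) ^ 4 * a) ((u : 𝓞 F) ^ 6 * b) p ↔
        InFam N ((w : 𝓞 F) ^ 4 * a) ((w : 𝓞 F) ^ 6 * b) p :=
      fun p => ⟨infam_congr huw, infam_congr huw.symm⟩
    simpa only [e1] using h) hc1
  rw [← hd] at hB
  refine ⟨C * (B₀ + 1), fun r l hr hprod hlB => ?_⟩
  have hl0 : 0 < l := lt_of_lt_of_le (by positivity) hlB
  obtain ⟨u, hu⟩ := hU r hr l hl0 hprod
  have hfin := rg_fin hr
  -- the sizes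
  set ρ : ℝ := (C * l) ^ 2 with hρ
  have hl1 : 1 ≤ l / C := by
    rw [le_div_iff₀ hC0]
    nlinarith [Nat.cast_nonneg (α := ℝ) B₀]
  have hlB' : (B₀ : ℝ) + 1 ≤ l / C := by
    rw [le_div_iff₀ hC0]
    linarith
  have hl1' : 1 ≤ l := by
    rw [le_div_iff₀ hC0] at hl1
    linarith
  have hρ1 : 1 ≤ ρ := by
    rw [hρ]
    exact one_le_pow₀ (one_le_mul_of_one_le_of_one_le hC hl1')
  set B : ℕ := ⌊(l / C) ^ 2⌋₊ with hBdef
  have hBle : (B : ℝ) ≤ (l / C) ^ 2 := Nat.floor_le (by positivity)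
  have hsq : l / C ≤ (l / C) ^ 2 := le_self_pow₀ hl1 two_ne_zero
  have hBge : (l / C) ^ 2 ≤ 2 * (B : ℝ) := by
    have h1 : (l / C) ^ 2 < B + 1 := Nat.lt_floor_add_one _
    have h2 : (1 : ℝ) ≤ B := by
      have : 1 ≤ B := Nat.le_floor (by push_cast; linarith)
      exact_mod_cast this
    linarith
  have hBB : B₀ ≤ B := Nat.le_floor (by linarith)
  set B' : ℕ := ⌈ρ⌉₊ with hB'def
  have hB'ge : ρ ≤ (B' : ℝ) := Nat.le_ceil _
  have hB'le : (B' : ℝ) ≤ 2 * ρ := by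
    have : (B' : ℝ) < ρ + 1 := Nat.ceil_lt_add_one (by positivity)
    linarith
  have hBB' : B₀ ≤ B' := by
    have h1 : (B₀ : ℝ) ≤ B' := by
      have h2 : l / C ≤ ρ := by
        have h3 : l / C ≤ l := div_le_self hl0.le hC
        have h4 : l ≤ C * l := le_mul_of_one_le_left hl0.le hC
        have h5 : C * l ≤ (C * l) ^ 2 :=
          le_self_pow₀ (one_le_mul_of_one_le_of_one_le hC hl1') two_ne_zero
        linarith
      linarith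
    exact_mod_cast h1
  -- lower bound for the family
  have hlow : c * (B : ℝ) ^ (5 * d) ≤
      ({p : 𝓞 F × 𝓞 F | p ∈ RG r ∧ InFam N a b p}.ncard : ℝ) := by
    refine (hB u B hBB).1.trans ?_
    have : {p : 𝓞 F × 𝓞 F | Bd (p.1 : F) ((B : ℝ) ^ 2) ∧ Bd (p.2 : F) ((B : ℝ) ^ 3) ∧
        InFam N ((u : 𝓞 F) ^ 4 * a) ((u : 𝓞 F) ^ 6 * b) p}.ncard ≤
        {p : 𝓞 F × 𝓞 F | p ∈ RG r ∧ InFam N a b p}.ncard := by
      refine Set.ncard_le_ncard_of_injOn (um u⁻¹) ?_ (um_inj _).injOn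
        (hfin.subset fun p hp => hp.1)
      rintro p ⟨h1, h2, h3⟩
      exact ⟨rg_inv_box hr hC0 hl0 u (fun v => (hu v).1) B (Nat.cast_nonneg _) hBle p
        ⟨h1, h2⟩, infam_um' u h3⟩
    exact_mod_cast this
  refine ⟨?_, ?_⟩
  · refine le_trans ?_ hlow
    calc c / (2 * C ^ 2) ^ (5 * d) * l ^ (10 * d) = c * ((l / C) ^ 2 / 2) ^ (5 * d) := by
          have e : (l / C) ^ 2 / 2 = l ^ 2 / (2 * C ^ 2) := by
            field_simp
          rw [e, div_pow (l ^ 2), show 10 * d = 2 * (5 * d) by ring, pow_mul l 2]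
          field_simp
      _ ≤ c * (B : ℝ) ^ (5 * d) := by
          refine mul_le_mul_of_nonneg_left (pow_le_pow_left₀ (by positivity) ?_ _) hc.le
          linarith
  · -- the exceptional members
    have h1 : ({p : 𝓞 F × 𝓞 F | p ∈ RG r ∧ InFam N a b p ∧ ¬ Q p}.ncard : ℝ) ≤
        ε / (2 * C ^ 2) ^ (5 * d) * (c * (B' : ℝ) ^ (5 * d)) := by
      refine le_trans ?_ (hB u B' hBB').2
      have : {p : 𝓞 F × 𝓞 F | p ∈ RG r ∧ InFam N a b p ∧ ¬ Q p}.ncard ≤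
          {p : 𝓞 F × 𝓞 F | Bd (p.1 : F) ((B' : ℝ) ^ 2) ∧ Bd (p.2 : F) ((B' : ℝ) ^ 3) ∧
            InFam N ((u : 𝓞 F) ^ 4 * a) ((u : 𝓞 F) ^ 6 * b) p ∧ ¬ Q p}.ncard := by
        refine Set.ncard_le_ncard_of_injOn (um u) ?_ (um_inj u).injOn
          ((hbx B' (hρ1.trans hB'ge)).1.subset fun p hp => ⟨hp.1, hp.2.1⟩)
        rintro p ⟨h1, h2, h3⟩
        have h4 := bx_mono (by positivity) hB'ge
          (rg_box hr u (fun v => (hu v).2) p h1)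
        refine ⟨h4.1, h4.2, infam_um u h2, fun h5 => h3 ?_⟩
        have h6 := hQ u⁻¹ _ h5
        rwa [um_um] at h6
      exact_mod_cast this
    refine h1.trans ?_
    calc ε / (2 * C ^ 2) ^ (5 * d) * (c * (B' : ℝ) ^ (5 * d)) ≤
          ε / (2 * C ^ 2) ^ (5 * d) * (c * (2 * ρ) ^ (5 * d)) := by
          refine mul_le_mul_of_nonneg_left (mul_le_mul_of_nonneg_left
            (pow_le_pow_left₀ (Nat.cast_nonneg _) hB'le _) hc.le) (by positivity)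
      _ = ε * (c * l ^ (10 * d)) := by
          have hD : (2 * C ^ 2) ^ (5 * d) ≠ 0 := by positivity
          have e : 2 * ρ = (2 * C ^ 2) * l ^ 2 := by rw [hρ]; ring
          rw [e, mul_pow (2 * C ^ 2) (l ^ 2) (5 * d), ← pow_mul l 2, show 2 * (5 * d) = 10 * d by ring]
          generalize (2 * C ^ 2) ^ (5 * d) = D at hD ⊢
          field_simp

section rgw

variable {F : Type} [Field F] [NumberField F]

/-- the region with the radii `r` and constants -/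
def RW (α β r : InfinitePlace F → ℝ) : Set (𝓞 F × 𝓞 F) :=
  {p | ∀ v : InfinitePlace F, v (p.1 : F) ≤ α v * r v ^ 4 ∧ v (p.2 : F) ≤ β v * r v ^ 6}

theorem hw_iff {α β r : InfinitePlace F → ℝ} {Q : ℝ} (hQ : 0 < Q) (p : 𝓞 F × 𝓞 F) :
    HW α β r Q p ↔ p ∈ RW α β (fun v => r v / √Q) := by
  unfold HW RW
  have hs : 0 < √Q := Real.sqrt_pos.2 hQ
  have hs2 : √Q ^ 2 = Q := Real.sq_sqrt hQ.le
  rw [Set.mem_setOf_eq]
  refine forall_congr' fun v => ?_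
  have e1 : α v * (r v / √Q) ^ 4 = α v * r v ^ 4 / Q ^ 2 := by
    rw [div_pow, show √Q ^ 4 = (√Q ^ 2) ^ 2 by ring, hs2, mul_div_assoc]
  have e2 : β v * (r v / √Q) ^ 6 = β v * r v ^ 6 / Q ^ 3 := by
    rw [div_pow, show √Q ^ 6 = (√Q ^ 2) ^ 3 by ring, hs2, mul_div_assoc]
  show _ ↔ v (p.1 : F) ≤ α v * (r v / √Q) ^ 4 ∧ v (p.2 : F) ≤ β v * (r v / √Q) ^ 6
  rw [e1, e2, le_div_iff₀ (by positivity), le_div_iff₀ (by positivity), mul_comm (Q ^ 2),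
    mul_comm (Q ^ 3)]

theorem exi_s (α β : InfinitePlace F → ℝ) (h : ∀ v, 0 < α v ∧ 0 < β v) :
    ∃ s : ℝ, 0 < s ∧ ∀ v, s ^ 4 ≤ α v ∧ s ^ 6 ≤ β v := by
  have h0 : ∀ v, 0 ≤ (α v)⁻¹ + (β v)⁻¹ := fun v => by
    have := h v
    have := this.1
    have := (h v).2
    positivity
  set M : ℝ := 1 + ∑ v, ((α v)⁻¹ + (β v)⁻¹) with hM
  have hM1 : 1 ≤ M := by
    have : 0 ≤ ∑ v, ((α v)⁻¹ + (β v)⁻¹) := Finset.sum_nonneg fun v _ => h0 v
    linarith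
  have hM0 : 0 < M := zero_lt_one.trans_le hM1
  have key : ∀ v, (α v)⁻¹ + (β v)⁻¹ ≤ M := fun v => by
    have := Finset.single_le_sum (f := fun v => (α v)⁻¹ + (β v)⁻¹) (fun w _ => h0 w)
      (Finset.mem_univ v)
    linarith
  have hs0 : 0 < M⁻¹ := inv_pos.2 hM0
  have hs1 : M⁻¹ ≤ 1 := inv_le_one_of_one_le₀ hM1
  refine ⟨M⁻¹, hs0, fun v => ?_⟩
  have hα := (h v).1
  have hβ := (h v).2
  have k := key v
  have hα' : 0 < (α v)⁻¹ := inv_pos.2 hα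
  have hβ' : 0 < (β v)⁻¹ := inv_pos.2 hβ
  constructor
  · refine (pow_le_of_le_one hs0.le hs1 (by norm_num)).trans ?_
    rw [inv_le_comm₀ hM0 hα]
    linarith
  · refine (pow_le_of_le_one hs0.le hs1 (by norm_num)).trans ?_
    rw [inv_le_comm₀ hM0 hβ]
    linarith

theorem exi_t (α β : InfinitePlace F → ℝ) (h : ∀ v, 0 < α v ∧ 0 < β v) :
    ∃ s : ℝ, 1 ≤ s ∧ ∀ v, α v ≤ s ^ 4 ∧ β v ≤ s ^ 6 := by
  have h0 : ∀ v, 0 ≤ α v + β v := fun v => by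
    have := (h v).1
    have := (h v).2
    positivity
  set M : ℝ := 1 + ∑ v, (α v + β v) with hM
  have hM1 : 1 ≤ M := by
    have : 0 ≤ ∑ v, (α v + β v) := Finset.sum_nonneg fun v _ => h0 v
    linarith
  refine ⟨M, hM1, fun v => ?_⟩
  have k : α v + β v ≤ M := by
    have := Finset.single_le_sum (f := fun v => α v + β v) (fun w _ => h0 w) (Finset.mem_univ v)
    linarith
  have hα := (h v).1
  have hβ := (h v).2
  exact ⟨le_trans (by linarith) (le_self_pow₀ hM1 (by norm_num)),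
    le_trans (by linarith) (le_self_pow₀ hM1 (by norm_num))⟩

theorem rg_rw {α β r : InfinitePlace F → ℝ} (hr : ∀ v, 0 < r v) {s : ℝ}
    (h : ∀ v, s ^ 4 ≤ α v ∧ s ^ 6 ≤ β v) : RG (fun v => s * r v) ⊆ RW α β r := by
  intro p hp v
  obtain ⟨h1, h2⟩ := hp v
  have h4 := pow_pos (hr v) 4
  have h6 := pow_pos (hr v) 6
  rw [mul_pow] at h1 h2
  exact ⟨h1.trans (mul_le_mul_of_nonneg_right (h v).1 h4.le),
    h2.trans (mul_le_mul_of_nonneg_right (h v).2 h6.le)⟩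

theorem rw_rg {α β r : InfinitePlace F → ℝ} (hr : ∀ v, 0 < r v) {s : ℝ}
    (h : ∀ v, α v ≤ s ^ 4 ∧ β v ≤ s ^ 6) : RW α β r ⊆ RG (fun v => s * r v) := by
  intro p hp v
  obtain ⟨h1, h2⟩ := hp v
  have h4 := pow_pos (hr v) 4
  have h6 := pow_pos (hr v) 6
  show _ ≤ (s * r v) ^ 4 ∧ _ ≤ (s * r v) ^ 6
  rw [mul_pow, mul_pow]
  exact ⟨h1.trans (mul_le_mul_of_nonneg_right (h v).1 h4.le),
    h2.trans (mul_le_mul_of_nonneg_right (h v).2 h6.le)⟩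

end rgw

/-- the shell -/
theorem rw_shell (hS : S_SHL) (F : Type) [Field F] [NumberField F] (α β : InfinitePlace F → ℝ)
    (hαβ : ∀ v, 0 < α v ∧ 0 < β v) : ∃ κ : ℝ, 0 < κ ∧
    ∀ (N : ℕ) (η : ℝ), 0 < N → 0 < η → η ≤ 1 → ∃ L₀ : ℝ,
    ∀ (r : InfinitePlace F → ℝ) (l : ℝ), (∀ v, 0 < r v) →
    l ^ Module.finrank ℚ F = ∏ v, r v ^ v.mult → L₀ ≤ l → ∀ a b : 𝓞 F,
    ({p : 𝓞 F × 𝓞 F | p ∈ RW α β r ∧ p.1 - a ∈ sp F N ∧ p.2 - b ∈ sp F N ∧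
      ∃ v : InfinitePlace F, (1 - η) * (α v * r v ^ 4) < v (p.1 : F) ∨
        (1 - η) * (β v * r v ^ 6) < v (p.2 : F)}.ncard : ℝ) ≤
      κ * η * l ^ (10 * Module.finrank ℚ F) / ((N : ℝ) ^ Module.finrank ℚ F) ^ 2 := by
  obtain ⟨κ, hκ, h⟩ := hS F
  set d : ℕ := Module.finrank ℚ F with hd
  have hd0 : 0 < d := Module.finrank_pos
  set A₀ : ℝ := ∏ v : InfinitePlace F, α v ^ v.mult with hA₀
  set B₀ : ℝ := ∏ v : InfinitePlace F, β v ^ v.mult with hB₀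
  have hA₀0 : 0 < A₀ := Finset.prod_pos fun v _ => pow_pos (hαβ v).1 _
  have hB₀0 : 0 < B₀ := Finset.prod_pos fun v _ => pow_pos (hαβ v).2 _
  refine ⟨2 * κ ^ 2 * A₀ * B₀, by positivity, fun N η hN hη hη1 => ?_⟩
  obtain ⟨V₀, hV⟩ := h N η hN hη hη1
  refine ⟨max 1 (max (V₀ / A₀) (V₀ / B₀)), fun r l hr hprod hl a b => ?_⟩
  have hl1 : 1 ≤ l := (le_max_left _ _).trans hl
  have hl0 : 0 < l := zero_lt_one.trans_le hl1
  have hlA : V₀ ≤ A₀ * l := by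
    have : V₀ / A₀ ≤ l := (le_max_left _ _).trans ((le_max_right _ _).trans hl)
    rw [div_le_iff₀ hA₀0] at this
    linarith
  have hlB : V₀ ≤ B₀ * l := by
    have : V₀ / B₀ ≤ l := (le_max_right _ _).trans ((le_max_right _ _).trans hl)
    rw [div_le_iff₀ hB₀0] at this
    linarith
  have p4 : ∏ v : InfinitePlace F, (α v * r v ^ 4) ^ v.mult = A₀ * l ^ (4 * d) := by
    rw [show 4 * d = d * 4 by ring, pow_mul l, hprod, ← Finset.prod_pow, hA₀,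
      ← Finset.prod_mul_distrib]
    refine Finset.prod_congr rfl fun v _ => ?_
    rw [mul_pow, ← pow_mul, ← pow_mul, mul_comm 4]
  have p6 : ∏ v : InfinitePlace F, (β v * r v ^ 6) ^ v.mult = B₀ * l ^ (6 * d) := by
    rw [show 6 * d = d * 6 by ring, pow_mul l, hprod, ← Finset.prod_pow, hB₀,
      ← Finset.prod_mul_distrib]
    refine Finset.prod_congr rfl fun v _ => ?_
    rw [mul_pow, ← pow_mul, ← pow_mul, mul_comm 6]
  obtain ⟨fa, ua, sa⟩ := hV (fun v => α v * r v ^ 4) (fun v => mul_pos (hαβ v).1 (pow_pos (hr v) 4)) (by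
    rw [p4]
    exact hlA.trans (mul_le_mul_of_nonneg_left (le_self_pow₀ hl1 (by omega)) hA₀0.le)) a
  obtain ⟨fb, ub, sb⟩ := hV (fun v => β v * r v ^ 6) (fun v => mul_pos (hαβ v).2 (pow_pos (hr v) 6)) (by
    rw [p6]
    exact hlB.trans (mul_le_mul_of_nonneg_left (le_self_pow₀ hl1 (by omega)) hB₀0.le)) b
  rw [p4] at ua sa
  rw [p6] at ub sb
  set A : Set (𝓞 F) := {x : 𝓞 F | x - a ∈ sp F N ∧ ∀ v : InfinitePlace F, v (x : F) ≤ α v * r v ^ 4} with hA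
  set A' : Set (𝓞 F) := {x : 𝓞 F | x - a ∈ sp F N ∧ (∀ v : InfinitePlace F, v (x : F) ≤ α v * r v ^ 4) ∧
      ∃ v : InfinitePlace F, (1 - η) * (α v * r v ^ 4) < v (x : F)} with hA'
  set B : Set (𝓞 F) := {x : 𝓞 F | x - b ∈ sp F N ∧ ∀ v : InfinitePlace F, v (x : F) ≤ β v * r v ^ 6} with hB
  set B' : Set (𝓞 F) := {x : 𝓞 F | x - b ∈ sp F N ∧ (∀ v : InfinitePlace F, v (x : F) ≤ β v * r v ^ 6) ∧
      ∃ v : InfinitePlace F, (1 - η) * (β v * r v ^ 6) < v (x : F)} with hB'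
  have fA' : A'.Finite := fa.subset fun x hx => ⟨hx.1, hx.2.1⟩
  have fB' : B'.Finite := fb.subset fun x hx => ⟨hx.1, hx.2.1⟩
  have hsub : {p : 𝓞 F × 𝓞 F | p ∈ RW α β r ∧ p.1 - a ∈ sp F N ∧ p.2 - b ∈ sp F N ∧
      ∃ v : InfinitePlace F, (1 - η) * (α v * r v ^ 4) < v (p.1 : F) ∨
        (1 - η) * (β v * r v ^ 6) < v (p.2 : F)} ⊆
      (A' ×ˢ B) ∪ (A ×ˢ B') := by
    rintro p ⟨h1, h2, h3, v, h4 | h4⟩
    · exact Or.inl ⟨⟨h2, fun w => (h1 w).1, v, h4⟩, ⟨h3, fun w => (h1 w).2⟩⟩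
    · exact Or.inr ⟨⟨h2, fun w => (h1 w).1⟩, ⟨h3, fun w => (h1 w).2, v, h4⟩⟩
  have hN0 : (0 : ℝ) < (N : ℝ) ^ d := by positivity
  have hc1 : ((A' ×ˢ B).ncard : ℝ) ≤
      (κ * η * (A₀ * l ^ (4 * d)) / N ^ d) * (κ * (B₀ * l ^ (6 * d)) / N ^ d) := by
    rw [Set.ncard_prod]
    push_cast
    exact mul_le_mul sa ub (Nat.cast_nonneg _) (by positivity)
  have hc2 : ((A ×ˢ B').ncard : ℝ) ≤
      (κ * (A₀ * l ^ (4 * d)) / N ^ d) * (κ * η * (B₀ * l ^ (6 * d)) / N ^ d) := by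
    rw [Set.ncard_prod]
    push_cast
    exact mul_le_mul ua sb (Nat.cast_nonneg _) (by positivity)
  have hle : ({p : 𝓞 F × 𝓞 F | p ∈ RW α β r ∧ p.1 - a ∈ sp F N ∧ p.2 - b ∈ sp F N ∧
      ∃ v : InfinitePlace F, (1 - η) * (α v * r v ^ 4) < v (p.1 : F) ∨
        (1 - η) * (β v * r v ^ 6) < v (p.2 : F)}.ncard : ℝ) ≤
      ((A' ×ˢ B).ncard : ℝ) + ((A ×ˢ B').ncard : ℝ) := by
    have h1 := Set.ncard_le_ncard hsub ((fA'.prod fb).union (fa.prod fB'))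
    have h2 := Set.ncard_union_le (A' ×ˢ B) (A ×ˢ B')
    exact_mod_cast h1.trans h2
  refine hle.trans ((add_le_add hc1 hc2).trans (le_of_eq ?_))
  rw [show 10 * d = 4 * d + 6 * d by ring, pow_add]
  field_simp
  ring

theorem prod_mulr {F : Type} [Field F] [NumberField F] {r : InfinitePlace F → ℝ} {l : ℝ} (s : ℝ)
    (h : l ^ Module.finrank ℚ F = ∏ v, r v ^ v.mult) :
    (s * l) ^ Module.finrank ℚ F = ∏ v : InfinitePlace F, (s * r v) ^ v.mult := by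
  simp only [mul_pow]
  rw [Finset.prod_mul_distrib, ← h, Finset.prod_pow_eq_pow_sum, InfinitePlace.sum_mult_eq]

theorem infam_disc {F : Type} [Field F] [NumberField F] {N : ℕ} {a b : 𝓞 F} {p : 𝓞 F × 𝓞 F}
    (h : InFam N a b p) : 4 * p.1 ^ 3 + 27 * p.2 ^ 2 ≠ 0 := by
  obtain ⟨P, hP0, hP⟩ := Ring.not_isField_iff_exists_prime.1 (RingOfIntegers.not_isField F)
  intro h0
  refine h.2.2 P hP hP0 ?_
  rw [h0]
  exact Submodule.zero_mem _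

theorem regw : S_REGW := by
  intro hSH F _ _ α β hαβ W c hW hc ε hε
  obtain ⟨D, C₀, hD, hC₀, hG⟩ := hgtA F
  obtain ⟨K, hK, hup⟩ := rg_up F
  obtain ⟨κ, hκ, hsh⟩ := rw_shell hSH F α β hαβ
  obtain ⟨s, hs0, hs⟩ := exi_s α β hαβ
  obtain ⟨t, ht1, ht⟩ := exi_t α β hαβ
  have ht0 : 0 < t := zero_lt_one.trans_le ht1
  set d : ℕ := Module.finrank ℚ F with hd
  have hd0 : 0 < d := Module.finrank_pos
  -- the constants
  set ε₁ : ℝ := ε * (s ^ (10 * d) / (C₀ * t ^ (10 * d))) with hε₁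
  have hε₁0 : 0 < ε₁ := by positivity
  refine ⟨ε₁ / D, by positivity, fun m => ?_⟩
  have hW' : (0 : ℝ) < W := by exact_mod_cast hW
  set η' : ℝ := min 1 (ε * c * s ^ (10 * d) * ((W : ℝ) ^ d) ^ 2 / (κ * C₀)) with hη'
  have hη'0 : 0 < η' := lt_min one_pos (by positivity)
  have hη'1 : η' ≤ 1 := min_le_left _ _
  have hη'2 : κ * η' * C₀ ≤ ε * c * s ^ (10 * d) * ((W : ℝ) ^ d) ^ 2 := by
    have h1 : η' ≤ ε * c * s ^ (10 * d) * ((W : ℝ) ^ d) ^ 2 / (κ * C₀) := min_le_right _ _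
    rw [le_div_iff₀ (by positivity)] at h1
    linarith
  obtain ⟨hb3, hb2⟩ := eta_bound hη'0 hη'1 m
  have hη0 : 0 < η' / (3 * m + 1) := by positivity
  refine ⟨η' / (3 * m + 1), hη0, ?_⟩
  set η : ℝ := η' / (3 * m + 1) with hη
  intro Pn a b Pr hPn0 hOk hPr hu Q hQ
  have hN : 0 < W * Pn := hOk.1
  have hPn' : (0 : ℝ) < (Pn : ℝ) := by exact_mod_cast hPn0
  have hPn : (0 : ℝ) < (Pn : ℝ) ^ (2 * d) := by positivity
  have hNd : (((W * Pn : ℕ) : ℝ) ^ d) ^ 2 = ((W : ℝ) ^ d) ^ 2 * (Pn : ℝ) ^ (2 * d) := by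
    push_cast
    rw [mul_pow, mul_pow, mul_comm 2 d, pow_mul (Pn : ℝ) d 2]
  set P : ℝ := (Pn : ℝ) ^ (2 * d) with hPdef
  obtain ⟨L₁, hL₁⟩ := hG (W * Pn) a b (c / P) ε₁ Pr hN (by positivity) hε₁0
    (fun u p h => hPr u p h) (by
    intro u
    obtain ⟨B₀, hB₀⟩ := hu u
    refine ⟨B₀, fun B hBB => ?_⟩
    obtain ⟨h1, h2⟩ := hB₀ B hBB
    constructor
    · rw [div_mul_eq_mul_div, div_le_iff₀ hPn]
      linarith
    · have e : ε₁ / D * (c / P * (B : ℝ) ^ (5 * Module.finrank ℚ F)) =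
          (ε₁ / D * (c * (B : ℝ) ^ (5 * Module.finrank ℚ F))) / P := by ring
      rw [e, le_div_iff₀ hPn]
      linarith)
  obtain ⟨L₂, hL₂⟩ := hsh (W * Pn) η' hN hη'0 hη'1
  have hsQ : 0 < √Q := Real.sqrt_pos.2 hQ
  set M : ℝ := max 1 (max (L₁ / s) (max (L₁ / s * √Q) (max (L₁ / t * √Q) (L₂ * √Q)))) with hM
  have hM0 : 0 ≤ M := zero_le_one.trans (le_max_left _ _)
  refine ⟨c / P / C₀ * s ^ (10 * d) / (Q ^ (5 * d) * (K * t ^ (10 * d))), M ^ d, by positivity,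
    fun r hr => ?_⟩
  have hrQ : ∀ v : InfinitePlace F, 0 < r v / √Q := fun v => div_pos (hr v) hsQ
  have mulr : ∀ {x : ℝ} {ρ : InfinitePlace F → ℝ}, 0 < x → (∀ v, 0 < ρ v) → ∀ v, 0 < x * ρ v :=
    fun hx hρ v => mul_pos hx (hρ v)
  have hfin1 : (RW α β r).Finite := (rg_fin (mulr ht0 hr)).subset (rw_rg hr ht)
  have hfinQ : (RW α β (fun v => r v / √Q)).Finite :=
    (rg_fin (mulr ht0 hrQ)).subset (rw_rg hrQ ht)
  have hw1 : ∀ p : 𝓞 F × 𝓞 F, HW α β r 1 p ↔ p ∈ RW α β r := fun p => by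
    rw [hw_iff one_pos, Real.sqrt_one]
    simp only [div_one]
  refine ⟨hfin1.subset fun p hp => (hw1 p).1 hp, hfinQ.subset fun p hp => (hw_iff hQ p).1 hp, ?_⟩
  intro hL
  -- the size
  have hpr0 : 0 < ∏ v : InfinitePlace F, r v ^ v.mult := Finset.prod_pos fun v _ => pow_pos (hr v) _
  set l : ℝ := (∏ v : InfinitePlace F, r v ^ v.mult) ^ ((d : ℝ)⁻¹) with hl
  have hl0 : 0 < l := Real.rpow_pos_of_pos hpr0 _
  have hprod : l ^ d = ∏ v : InfinitePlace F, r v ^ v.mult := by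
    rw [hl, Real.rpow_inv_natCast_pow hpr0.le hd0.ne']
  have hMl : M ≤ l := by
    rw [← hprod] at hL
    exact (pow_le_pow_iff_left₀ hM0 hl0.le hd0.ne').1 hL
  have hl1 : 1 ≤ l := (le_max_left _ _).trans hMl
  have hM2 := (le_max_right _ _).trans hMl
  have hlL1 : L₁ ≤ s * l := by
    have := (le_max_left _ _).trans hM2
    rw [div_le_iff₀ hs0] at this
    linarith
  have hM3 := (le_max_right _ _).trans hM2
  have hlL2 : L₁ ≤ s * (l / √Q) := by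
    have h1 := (le_max_left _ _).trans hM3
    rw [mul_div_assoc', le_div_iff₀ hsQ]
    have h2 : L₁ / s * √Q * s ≤ l * s := mul_le_mul_of_nonneg_right h1 hs0.le
    have h3 : L₁ / s * √Q * s = L₁ * √Q := by field_simp
    linarith
  have hM4 := (le_max_right _ _).trans hM3
  have hlL3 : L₁ ≤ t * (l / √Q) := by
    have h1 := (le_max_left _ _).trans hM4
    rw [mul_div_assoc', le_div_iff₀ hsQ]
    have h2 : L₁ / t * √Q * t ≤ l * t := mul_le_mul_of_nonneg_right h1 ht0.le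
    have h3 : L₁ / t * √Q * t = L₁ * √Q := by field_simp
    linarith
  have hlL4 : L₂ ≤ l / √Q := by
    rw [le_div_iff₀ hsQ]
    exact (le_max_right _ _).trans hM4
  have hprodQ : (l / √Q) ^ d = ∏ v : InfinitePlace F, (r v / √Q) ^ v.mult := prod_scale hprod
  -- the lower bounds
  have low1 := (hL₁ (fun v => s * r v) (s * l) (mulr hs0 hr) (prod_mulr s hprod) hlL1).1
  have lowQ := (hL₁ (fun v => s * (r v / √Q)) (s * (l / √Q)) (mulr hs0 hrQ)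
    (prod_mulr s hprodQ) hlL2).1
  have excQ := (hL₁ (fun v => t * (r v / √Q)) (t * (l / √Q)) (mulr ht0 hrQ)
    (prod_mulr t hprodQ) hlL3).2
  have hshell := hL₂ (fun v => r v / √Q) (l / √Q) hrQ hprodQ hlL4 a b
  have eS : {p : 𝓞 F × 𝓞 F | HW α β r Q p ∧ InFam (W * Pn) a b p} =
      {p : 𝓞 F × 𝓞 F | p ∈ RW α β (fun v => r v / √Q) ∧ InFam (W * Pn) a b p} := by
    ext p
    simp only [Set.mem_setOf_eq, hw_iff hQ]
  have eS2 : {p : 𝓞 F × 𝓞 F | HW α β r Q p ∧ InFam (W * Pn) a b p ∧ ¬ Pr p} =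
      {p : 𝓞 F × 𝓞 F | p ∈ RW α β (fun v => r v / √Q) ∧ InFam (W * Pn) a b p ∧ ¬ Pr p} := by
    ext p
    simp only [Set.mem_setOf_eq, hw_iff hQ]
  have hlow : c / P / C₀ * s ^ (10 * d) * (l / √Q) ^ (10 * d) ≤
      ({p : 𝓞 F × 𝓞 F | p ∈ RW α β (fun v => r v / √Q) ∧ InFam (W * Pn) a b p}.ncard : ℝ) := by
    have h1 : ({p : 𝓞 F × 𝓞 F | p ∈ RG (fun v => s * (r v / √Q)) ∧
        InFam (W * Pn) a b p}.ncard : ℝ) ≤
        ({p : 𝓞 F × 𝓞 F | p ∈ RW α β (fun v => r v / √Q) ∧ InFam (W * Pn) a b p}.ncard : ℝ) := by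
      have : {p : 𝓞 F × 𝓞 F | p ∈ RG (fun v => s * (r v / √Q)) ∧ InFam (W * Pn) a b p} ⊆
          {p : 𝓞 F × 𝓞 F | p ∈ RW α β (fun v => r v / √Q) ∧ InFam (W * Pn) a b p} :=
        fun p hp => ⟨rg_rw hrQ hs hp.1, hp.2⟩
      exact_mod_cast Set.ncard_le_ncard this (hfinQ.subset fun p hp => hp.1)
    refine le_trans (le_of_eq ?_) (lowQ.trans h1)
    rw [mul_pow s]
    ring
  have hq10 : (l / √Q) ^ (10 * d) = l ^ (10 * d) / Q ^ (5 * d) := by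
    rw [div_pow]
    congr 1
    rw [show 10 * d = 2 * (5 * d) by ring, pow_mul, Real.sq_sqrt hQ.le]
  refine ⟨?_, ?_, ?_, ?_⟩
  · -- positivity
    rw [Set.ncard_pos ((hfin1.subset fun p hp => (hw1 p).1 hp).subset fun p hp => hp.1)]
    have h1 : 0 < c / P / C₀ * (s * l) ^ (10 * d) := by positivity
    have h2 : 0 < {p : 𝓞 F × 𝓞 F | p ∈ RG (fun v => s * r v) ∧ InFam (W * Pn) a b p}.ncard := by
      exact_mod_cast h1.trans_le low1
    obtain ⟨p, hp1, hp2⟩ := Set.nonempty_of_ncard_ne_zero h2.ne'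
    exact ⟨p, (hw1 p).2 (rg_rw hr hs hp1), infam_disc hp2⟩
  · -- the proportion
    rw [eS]
    refine le_trans ?_ hlow
    have h1 := hup (fun v => t * r v) (t * l) (mulr ht0 hr) (prod_mulr t hprod)
      (one_le_mul_of_one_le_of_one_le ht1 hl1)
    have h2 : ({p : 𝓞 F × 𝓞 F | HW α β r 1 p ∧ 4 * p.1 ^ 3 + 27 * p.2 ^ 2 ≠ 0}.ncard : ℝ) ≤
        K * (t * l) ^ (10 * d) := by
      refine le_trans ?_ h1
      have : {p : 𝓞 F × 𝓞 F | HW α β r 1 p ∧ 4 * p.1 ^ 3 + 27 * p.2 ^ 2 ≠ 0}.ncard ≤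
          (RG (F := F) (fun v => t * r v)).ncard :=
        Set.ncard_le_ncard (fun p hp => rw_rg hr ht ((hw1 p).1 hp.1)) (rg_fin (mulr ht0 hr))
      exact_mod_cast this
    calc c / P / C₀ * s ^ (10 * d) / (Q ^ (5 * d) * (K * t ^ (10 * d))) *
          ({p : 𝓞 F × 𝓞 F | HW α β r 1 p ∧ 4 * p.1 ^ 3 + 27 * p.2 ^ 2 ≠ 0}.ncard : ℝ) ≤
          c / P / C₀ * s ^ (10 * d) / (Q ^ (5 * d) * (K * t ^ (10 * d))) *
            (K * (t * l) ^ (10 * d)) :=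
          mul_le_mul_of_nonneg_left h2 (by positivity)
      _ = c / P / C₀ * s ^ (10 * d) * (l / √Q) ^ (10 * d) := by
          rw [hq10, mul_pow t]
          field_simp
  · -- the shell
    rw [eS]
    have hsub : {p : 𝓞 F × 𝓞 F | HW α β r Q p ∧ InFam (W * Pn) a b p ∧
        ¬ HW α β r ((1 + η) ^ m * Q) p} ⊆
        {p : 𝓞 F × 𝓞 F | p ∈ RW α β (fun v => r v / √Q) ∧ p.1 - a ∈ sp F (W * Pn) ∧
          p.2 - b ∈ sp F (W * Pn) ∧ ∃ v : InfinitePlace F,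
            (1 - η') * (α v * (r v / √Q) ^ 4) < v (p.1 : F) ∨
            (1 - η') * (β v * (r v / √Q) ^ 6) < v (p.2 : F)} := by
      rintro p ⟨h1, h2, h3⟩
      refine ⟨(hw_iff hQ p).1 h1, h2.1, h2.2.1, ?_⟩
      have ht : 0 < (1 + η) ^ m := by positivity
      have htQ : 0 < (1 + η) ^ m * Q := by positivity
      by_contra hcon
      push Not at hcon
      refine h3 ((hw_iff htQ p).2 fun v => ?_)
      obtain ⟨h4, h5⟩ := hcon v
      have hsr : √((1 + η) ^ m * Q) = √((1 + η) ^ m) * √Q := Real.sqrt_mul ht.le _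
      have e4 : α v * (r v / √((1 + η) ^ m * Q)) ^ 4 =
          (α v * (r v / √Q) ^ 4) / ((1 + η) ^ m) ^ 2 := by
        rw [hsr, mul_comm (√((1 + η) ^ m)), ← div_div, div_pow _ (√((1 + η) ^ m)),
          show √((1 + η) ^ m) ^ 4 = (√((1 + η) ^ m) ^ 2) ^ 2 by ring, Real.sq_sqrt ht.le,
          mul_div_assoc]
      have e6 : β v * (r v / √((1 + η) ^ m * Q)) ^ 6 =
          (β v * (r v / √Q) ^ 6) / ((1 + η) ^ m) ^ 3 := by
        rw [hsr, mul_comm (√((1 + η) ^ m)), ← div_div, div_pow _ (√((1 + η) ^ m)),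
          show √((1 + η) ^ m) ^ 6 = (√((1 + η) ^ m) ^ 2) ^ 3 by ring, Real.sq_sqrt ht.le,
          mul_div_assoc]
      have hr4 : 0 < α v * (r v / √Q) ^ 4 := mul_pos (hαβ v).1 (pow_pos (hrQ v) 4)
      have hr6 : 0 < β v * (r v / √Q) ^ 6 := mul_pos (hαβ v).2 (pow_pos (hrQ v) 6)
      constructor
      · show v (p.1 : F) ≤ α v * (r v / √((1 + η) ^ m * Q)) ^ 4
        rw [e4, le_div_iff₀ (by positivity)]
        calc v (p.1 : F) * ((1 + η) ^ m) ^ 2 ≤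
              ((1 - η') * (α v * (r v / √Q) ^ 4)) * ((1 + η) ^ m) ^ 2 :=
              mul_le_mul_of_nonneg_right h4 (by positivity)
          _ = ((1 - η') * ((1 + η) ^ m) ^ 2) * (α v * (r v / √Q) ^ 4) := by ring
          _ ≤ 1 * (α v * (r v / √Q) ^ 4) := mul_le_mul_of_nonneg_right hb2 hr4.le
          _ = _ := one_mul _
      · show v (p.2 : F) ≤ β v * (r v / √((1 + η) ^ m * Q)) ^ 6
        rw [e6, le_div_iff₀ (by positivity)]
        calc v (p.2 : F) * ((1 + η) ^ m) ^ 3 ≤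
              ((1 - η') * (β v * (r v / √Q) ^ 6)) * ((1 + η) ^ m) ^ 3 :=
              mul_le_mul_of_nonneg_right h5 (by positivity)
          _ = ((1 - η') * ((1 + η) ^ m) ^ 3) * (β v * (r v / √Q) ^ 6) := by ring
          _ ≤ 1 * (β v * (r v / √Q) ^ 6) := mul_le_mul_of_nonneg_right hb3 hr6.le
          _ = _ := one_mul _
    have h1 : ({p : 𝓞 F × 𝓞 F | HW α β r Q p ∧ InFam (W * Pn) a b p ∧
        ¬ HW α β r ((1 + η) ^ m * Q) p}.ncard : ℝ) ≤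
        κ * η' * (l / √Q) ^ (10 * d) / (((W * Pn : ℕ) : ℝ) ^ d) ^ 2 := by
      refine le_trans ?_ hshell
      exact_mod_cast Set.ncard_le_ncard hsub (hfinQ.subset fun p hp => hp.1)
    refine h1.trans ?_
    rw [hNd]
    calc κ * η' * (l / √Q) ^ (10 * d) / (((W : ℝ) ^ d) ^ 2 * P) =
          (κ * η' * C₀) * ((l / √Q) ^ (10 * d) / (((W : ℝ) ^ d) ^ 2 * P * C₀)) := by
          field_simp
      _ ≤ (ε * c * s ^ (10 * d) * ((W : ℝ) ^ d) ^ 2) *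
            ((l / √Q) ^ (10 * d) / (((W : ℝ) ^ d) ^ 2 * P * C₀)) :=
          mul_le_mul_of_nonneg_right hη'2 (by positivity)
      _ = ε * (c / P / C₀ * s ^ (10 * d) * (l / √Q) ^ (10 * d)) := by
          field_simp
      _ ≤ _ := mul_le_mul_of_nonneg_left hlow hε.le
  · -- the exceptions
    rw [eS, eS2]
    have h1 : ({p : 𝓞 F × 𝓞 F | p ∈ RW α β (fun v => r v / √Q) ∧ InFam (W * Pn) a b p ∧
        ¬ Pr p}.ncard : ℝ) ≤
        ({p : 𝓞 F × 𝓞 F | p ∈ RG (fun v => t * (r v / √Q)) ∧ InFam (W * Pn) a b p ∧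
          ¬ Pr p}.ncard : ℝ) := by
      have : {p : 𝓞 F × 𝓞 F | p ∈ RW α β (fun v => r v / √Q) ∧ InFam (W * Pn) a b p ∧ ¬ Pr p} ⊆
          {p : 𝓞 F × 𝓞 F | p ∈ RG (fun v => t * (r v / √Q)) ∧ InFam (W * Pn) a b p ∧ ¬ Pr p} :=
        fun p hp => ⟨rw_rg hrQ ht hp.1, hp.2⟩
      exact_mod_cast Set.ncard_le_ncard this ((rg_fin (mulr ht0 hrQ)).subset fun p hp => hp.1)
    refine h1.trans (excQ.trans ?_)
    calc ε₁ * (c / P * (t * (l / √Q)) ^ (10 * d)) =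
          ε * (c / P / C₀ * s ^ (10 * d) * (l / √Q) ^ (10 * d)) := by
          rw [hε₁, mul_pow t]
          field_simp
      _ ≤ _ := mul_le_mul_of_nonneg_left hlow hε.le

end Pool.Agent.H71PR
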