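import Pool.Agent.H68K.PR.Hgt
import Pool.Agent.H68K.PR.StmU

/-!
# The regions of bounded height (S_REGA)
-/

set_option autoImplicit false
set_option linter.all false

open Polynomial NumberField NumberField.InfinitePlace
open Pool.Agent.N783.PF (Bd sp Dp)
open Pool.Agent.H64.PR
open Pool.Agent.H68K.PR
open scoped Classical

namespace Pool.Agent.H71PR

section rg

variable {F : Type} [Field F] [NumberField F]

/-- the region with the radii `r` -/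
def RG (r : InfinitePlace F → ℝ) : Set (𝓞 F × 𝓞 F) :=
  {p | ∀ v : InfinitePlace F, v (p.1 : F) ≤ r v ^ 4 ∧ v (p.2 : F) ≤ r v ^ 6}

theorem rg_box {r : InfinitePlace F → ℝ} (hr : ∀ v, 0 < r v) {C l : ℝ} (u : (𝓞 F)ˣ)
    (hu : ∀ v : InfinitePlace F, v ((u : 𝓞 F) : F) * r v ≤ C * l) (p : 𝓞 F × 𝓞 F)
    (hp : p ∈ RG r) : um u p ∈ bx F ((C * l) ^ 2) := by
  constructor
  · rw [bd_iff]
    intro v
    have e : ((um u p).1 : F) = ((u : 𝓞 F) : F) ^ 4 * (p.1 : F) := by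
      simp only [um, map_mul, map_pow]
    rw [e, map_mul, map_pow]
    calc v ((u : 𝓞 F) : F) ^ 4 * v (p.1 : F) ≤ v ((u : 𝓞 F) : F) ^ 4 * r v ^ 4 :=
          mul_le_mul_of_nonneg_left (hp v).1 (pow_nonneg (apply_nonneg _ _) _)
      _ = (v ((u : 𝓞 F) : F) * r v) ^ 4 := by ring
      _ ≤ (C * l) ^ 4 := pow_le_pow_left₀
          (mul_nonneg (apply_nonneg _ _) (hr v).le) (hu v) 4
      _ = ((C * l) ^ 2) ^ 2 := by ring
  · rw [bd_iff]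
    intro v
    have e : ((um u p).2 : F) = ((u : 𝓞 F) : F) ^ 6 * (p.2 : F) := by
      simp only [um, map_mul, map_pow]
    rw [e, map_mul, map_pow]
    calc v ((u : 𝓞 F) : F) ^ 6 * v (p.2 : F) ≤ v ((u : 𝓞 F) : F) ^ 6 * r v ^ 6 :=
          mul_le_mul_of_nonneg_left (hp v).2 (pow_nonneg (apply_nonneg _ _) _)
      _ = (v ((u : 𝓞 F) : F) * r v) ^ 6 := by ring
      _ ≤ (C * l) ^ 6 := pow_le_pow_left₀
          (mul_nonneg (apply_nonneg _ _) (hr v).le) (hu v) 6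
      _ = ((C * l) ^ 2) ^ 3 := by ring

theorem rg_inv_box {r : InfinitePlace F → ℝ} (hr : ∀ v, 0 < r v) {C l : ℝ} (hC : 0 < C)
    (hl : 0 < l) (u : (𝓞 F)ˣ)
    (hu : ∀ v : InfinitePlace F, l ≤ C * (v ((u : 𝓞 F) : F) * r v)) (B : ℝ) (hB0 : 0 ≤ B)
    (hB : B ≤ (l / C) ^ 2) (p : 𝓞 F × 𝓞 F)
    (hp : p ∈ bx F B) : um u⁻¹ p ∈ RG r := by
  intro v
  have hu0 : ((u : 𝓞 F) : F) ≠ 0 :=
    (map_ne_zero_iff _ (FaithfulSMul.algebraMap_injective (𝓞 F) F)).2 u.ne_zero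
  have hvu : 0 < v ((u : 𝓞 F) : F) := (InfinitePlace.pos_iff).2 hu0
  have hinv : v (((u⁻¹ : (𝓞 F)ˣ) : 𝓞 F) : F) * v ((u : 𝓞 F) : F) = 1 := by
    rw [← map_mul, ← map_mul, ← Units.val_mul, inv_mul_cancel, Units.val_one, map_one, map_one]
  have hi : v (((u⁻¹ : (𝓞 F)ˣ) : 𝓞 F) : F) = (v ((u : 𝓞 F) : F))⁻¹ := eq_inv_of_mul_eq_one_left hinv
  have hR := hr v
  have h1 : l / C ≤ v ((u : 𝓞 F) : F) * r v := by
    rw [div_le_iff₀ hC, mul_comm]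
    exact hu v
  have h2 : 0 ≤ l / C := by positivity
  have h3 : B ≤ (v ((u : 𝓞 F) : F) * r v) ^ 2 := hB.trans (pow_le_pow_left₀ h2 h1 2)
  constructor
  · have e : ((um u⁻¹ p).1 : F) = (((u⁻¹ : (𝓞 F)ˣ) : 𝓞 F) : F) ^ 4 * (p.1 : F) := by
      simp only [um, map_mul, map_pow]
    rw [e, map_mul, map_pow, hi]
    have h4 : v (p.1 : F) ≤ B ^ 2 := (bd_iff _ _).1 hp.1 v
    have h5 : v (p.1 : F) ≤ ((v ((u : 𝓞 F) : F) * r v) ^ 2) ^ 2 :=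
      h4.trans (pow_le_pow_left₀ hB0 h3 2)
    calc (v ((u : 𝓞 F) : F))⁻¹ ^ 4 * v (p.1 : F) ≤
          (v ((u : 𝓞 F) : F))⁻¹ ^ 4 * ((v ((u : 𝓞 F) : F) * r v) ^ 2) ^ 2 :=
          mul_le_mul_of_nonneg_left h5 (by positivity)
      _ = r v ^ 4 := by field_simp
  · have e : ((um u⁻¹ p).2 : F) = (((u⁻¹ : (𝓞 F)ˣ) : 𝓞 F) : F) ^ 6 * (p.2 : F) := by
      simp only [um, map_mul, map_pow]
    rw [e, map_mul, map_pow, hi]
    have h4 : v (p.2 : F) ≤ B ^ 3 := (bd_iff _ _).1 hp.2 v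
    have h5 : v (p.2 : F) ≤ ((v ((u : 𝓞 F) : F) * r v) ^ 2) ^ 3 :=
      h4.trans (pow_le_pow_left₀ hB0 h3 3)
    calc (v ((u : 𝓞 F) : F))⁻¹ ^ 6 * v (p.2 : F) ≤
          (v ((u : 𝓞 F) : F))⁻¹ ^ 6 * ((v ((u : 𝓞 F) : F) * r v) ^ 2) ^ 3 :=
          mul_le_mul_of_nonneg_left h5 (by positivity)
      _ = r v ^ 6 := by field_simp

theorem rg_fin {r : InfinitePlace F → ℝ} (hr : ∀ v, 0 < r v) : (RG r).Finite := by
  obtain ⟨-, C, hC, -, h⟩ := Pool.Agent.N490.PF.pts F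
  have h0 : ∀ v, 0 ≤ r v ^ 4 + r v ^ 6 := fun v => by
    have := hr v
    positivity
  have hM : (0 : ℝ) ≤ ∑ v, (r v ^ 4 + r v ^ 6) := Finset.sum_nonneg fun v _ => h0 v
  have h1 := (h ⊤ 0 _ top_ne_bot hM).1
  refine (h1.prod h1).subset ?_
  rintro p hp
  have key : ∀ v, r v ^ 4 + r v ^ 6 ≤ ∑ v, (r v ^ 4 + r v ^ 6) := fun v =>
    Finset.single_le_sum (f := fun v => r v ^ 4 + r v ^ 6) (fun w _ => h0 w) (Finset.mem_univ v)
  refine ⟨⟨trivial, (bd_iff _ _).2 fun v => (hp v).1.trans ?_⟩,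
    ⟨trivial, (bd_iff _ _).2 fun v => (hp v).2.trans ?_⟩⟩
  · have := key v
    have := pow_nonneg (hr v).le 6
    linarith
  · have := key v
    have := pow_nonneg (hr v).le 4
    linarith

theorem pow_Rv {Y : ℝ} (hY : 0 < Y) (v : InfinitePlace F) {x : ℝ} (hx : 0 ≤ x) :
    ((x ^ v.mult) ^ 3 ≤ Y ↔ x ≤ Rv Y v ^ 4) ∧ ((x ^ v.mult) ^ 2 ≤ Y ↔ x ≤ Rv Y v ^ 6) := by
  have hm : v.mult ≠ 0 := v.mult_pos.ne'
  have hR := (Rv_pos hY v).le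
  constructor
  · have h1 : Y = (Rv Y v ^ 4) ^ (v.mult * 3) := by
      rw [← pow_mul, show 4 * (v.mult * 3) = 12 * v.mult by ring, Rv_pow hY v]
    rw [← pow_mul]
    nth_rewrite 1 [h1]
    exact pow_le_pow_iff_left₀ hx (pow_nonneg hR _) (mul_ne_zero hm (by norm_num))
  · have h1 : Y = (Rv Y v ^ 6) ^ (v.mult * 2) := by
      rw [← pow_mul, show 6 * (v.mult * 2) = 12 * v.mult by ring, Rv_pow hY v]
    rw [← pow_mul]
    nth_rewrite 1 [h1]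
    exact pow_le_pow_iff_left₀ hx (pow_nonneg hR _) (mul_ne_zero hm (by norm_num))

theorem hr_iff {Y Q : ℝ} (hY : 0 < Y) (hQ : 0 < Q) (p : 𝓞 F × 𝓞 F) :
    HR Y Q p ↔ p ∈ RG (fun v => Rv Y v / √Q) := by
  unfold HR RG
  have hs : 0 < √Q := Real.sqrt_pos.2 hQ
  have hs2 : √Q ^ 2 = Q := Real.sq_sqrt hQ.le
  rw [Set.mem_setOf_eq]
  refine forall_congr' fun v => ?_
  rw [(pow_Rv hY v (mul_nonneg (by positivity) (apply_nonneg v (p.1 : F)))).1,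
    (pow_Rv hY v (mul_nonneg (by positivity) (apply_nonneg v (p.2 : F)))).2]
  have e1 : (Rv Y v / √Q) ^ 4 = Rv Y v ^ 4 / Q ^ 2 := by
    rw [div_pow, show √Q ^ 4 = (√Q ^ 2) ^ 2 by ring, hs2]
  have e2 : (Rv Y v / √Q) ^ 6 = Rv Y v ^ 6 / Q ^ 3 := by
    rw [div_pow, show √Q ^ 6 = (√Q ^ 2) ^ 3 by ring, hs2]
  rw [e1, e2, le_div_iff₀ (by positivity), le_div_iff₀ (by positivity), mul_comm (Q ^ 2),
    mul_comm (Q ^ 3)]

theorem hr_fin (Y : ℝ) {Q : ℝ} (hQ : 0 < Q) : {p : 𝓞 F × 𝓞 F | HR Y Q p}.Finite := by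
  have h1 : (0 : ℝ) < max Y 1 := lt_max_of_lt_right one_pos
  refine (rg_fin (F := F) (r := fun v => Rv (max Y 1) v / √Q)
    fun v => div_pos (Rv_pos h1 v) (Real.sqrt_pos.2 hQ)).subset ?_
  intro p hp
  rw [← hr_iff h1 hQ]
  exact fun v => ⟨(hp v).1.trans (le_max_left _ _), (hp v).2.trans (le_max_left _ _)⟩

end rg

/-- upper bound for the region -/
theorem rg_up (F : Type) [Field F] [NumberField F] : ∃ K : ℝ, 0 < K ∧
    ∀ (r : InfinitePlace F → ℝ) (l : ℝ), (∀ v, 0 < r v) →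
    l ^ Module.finrank ℚ F = ∏ v, r v ^ v.mult → 1 ≤ l →
    ((RG r).ncard : ℝ) ≤ K * l ^ (10 * Module.finrank ℚ F) := by
  obtain ⟨C, hC, hU⟩ := unb F
  obtain ⟨K, hK, hbx⟩ := bx_fin F
  have hC0 : 0 < C := zero_lt_one.trans_le hC
  set d : ℕ := Module.finrank ℚ F with hd
  refine ⟨K * (C ^ 2) ^ (5 * d), by positivity, fun r l hr hprod hl => ?_⟩
  have hl0 : 0 < l := zero_lt_one.trans_le hl
  obtain ⟨u, hu⟩ := hU r hr l hl0 hprod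
  have hρ1 : 1 ≤ (C * l) ^ 2 := one_le_pow₀ (one_le_mul_of_one_le_of_one_le hC hl)
  calc ((RG r).ncard : ℝ) ≤ ((bx F ((C * l) ^ 2)).ncard : ℝ) := by
        exact_mod_cast Set.ncard_le_ncard_of_injOn (um u)
          (fun p hp => rg_box hr u (fun v => (hu v).2) p hp) (um_inj u).injOn (hbx _ hρ1).1
    _ ≤ K * ((C * l) ^ 2) ^ (5 * d) := (hbx _ hρ1).2
    _ = K * (C ^ 2) ^ (5 * d) * l ^ (10 * d) := by
        rw [mul_pow C l 2, mul_pow (C ^ 2) (l ^ 2), show 10 * d = 2 * (5 * d) by ring, pow_mul l 2]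
        ring

/-- From balanced boxes to the regions, for any property which is invariant under the units. -/
theorem hgtR (F : Type) [Field F] [NumberField F] : ∃ D C₀ : ℝ, 0 < D ∧ 0 < C₀ ∧
    ∀ (N : ℕ) (a b : 𝓞 F) (c ε : ℝ)
    (Q : 𝓞 F × 𝓞 F → Prop), 0 < N → 0 < c → 0 < ε → (∀ (u : (𝓞 F)ˣ) p, Q p → Q (um u p)) →
    (∀ u : (𝓞 F)ˣ, ∃ B₀ : ℕ, ∀ B ≥ B₀,
    c * (B : ℝ) ^ (5 * Module.finrank ℚ F) ≤
      ({p : 𝓞 F × 𝓞 F | Bd (p.1 : F) ((B : ℝ) ^ 2) ∧ Bd (p.2 : F) ((B : ℝ) ^ 3) ∧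
        InFam N ((u : 𝓞 F) ^ 4 * a) ((u : 𝓞 F) ^ 6 * b) p}.ncard : ℝ) ∧
    ({p : 𝓞 F × 𝓞 F | Bd (p.1 : F) ((B : ℝ) ^ 2) ∧ Bd (p.2 : F) ((B : ℝ) ^ 3) ∧
        InFam N ((u : 𝓞 F) ^ 4 * a) ((u : 𝓞 F) ^ 6 * b) p ∧ ¬ Q p}.ncard : ℝ) ≤
      ε / D * (c * (B : ℝ) ^ (5 * Module.finrank ℚ F))) →
    ∃ L₀ : ℝ, ∀ (r : InfinitePlace F → ℝ) (l : ℝ), (∀ v, 0 < r v) →
    l ^ Module.finrank ℚ F = ∏ v, r v ^ v.mult → L₀ ≤ l →
    c / C₀ * l ^ (10 * Module.finrank ℚ F) ≤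
      ({p : 𝓞 F × 𝓞 F | p ∈ RG r ∧ InFam N a b p}.ncard : ℝ) ∧
    ({p : 𝓞 F × 𝓞 F | p ∈ RG r ∧ InFam N a b p ∧ ¬ Q p}.ncard : ℝ) ≤
      ε * ({p : 𝓞 F × 𝓞 F | p ∈ RG r ∧ InFam N a b p}.ncard : ℝ) := by
  obtain ⟨C, hC, hU⟩ := unb F
  obtain ⟨K, hK, hbx⟩ := bx_fin F
  have hC0 : 0 < C := zero_lt_one.trans_le hC
  set d : ℕ := Module.finrank ℚ F with hd
  have hd0 : 0 < d := Module.finrank_pos
  refine ⟨(4 * C ^ 4) ^ (5 * d), (2 * C ^ 2) ^ (5 * d), by positivity, by positivity, ?_⟩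
  intro N a b c ε Q hN hc hε hQ hc1
  obtain ⟨B₀, hB⟩ := unif (F := F) hN (fun u B =>
    c * (B : ℝ) ^ (5 * Module.finrank ℚ F) ≤
      ({p : 𝓞 F × 𝓞 F | Bd (p.1 : F) ((B : ℝ) ^ 2) ∧ Bd (p.2 : F) ((B : ℝ) ^ 3) ∧
        InFam N ((u : 𝓞 F) ^ 4 * a) ((u : 𝓞 F) ^ 6 * b) p}.ncard : ℝ) ∧
    ({p : 𝓞 F × 𝓞 F | Bd (p.1 : F) ((B : ℝ) ^ 2) ∧ Bd (p.2 : F) ((B : ℝ) ^ 3) ∧
        InFam N ((u : 𝓞 F) ^ 4 * a) ((u : 𝓞 F) ^ 6 * b) p ∧ ¬ Q p}.ncard : ℝ) ≤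
      ε / (4 * C ^ 4) ^ (5 * d) * (c * (B : ℝ) ^ (5 * Module.finrank ℚ F))) (by
    intro u w huw B h
    have e1 : ∀ p, InFam N ((u : 𝓞 F) ^ 4 * a) ((u : 𝓞 F) ^ 6 * b) p ↔
        InFam N ((w : 𝓞 F) ^ 4 * a) ((w : 𝓞 F) ^ 6 * b) p :=
      fun p => ⟨infam_congr huw, infam_congr huw.symm⟩
    simpa only [e1] using h) hc1
  rw [← hd] at hB
  refine ⟨C * (B₀ + 1), fun r l hr hprod hlB => ?_⟩
  have hl0 : 0 < l := lt_of_lt_of_le (by positivity) hlB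
  obtain ⟨u, hu⟩ := hU r hr l hl0 hprod
  have hfin := rg_fin hr
  -- the sizes
  set ρ : ℝ := (C * l) ^ 2 with hρ
  have hl1 : 1 ≤ l / C := by
    rw [le_div_iff₀ hC0]
    nlinarith [Nat.cast_nonneg (α := ℝ) B₀]
  have hlB' : (B₀ : ℝ) + 1 ≤ l / C := by
    rw [le_div_iff₀ hC0]
    linarith
  have hl1' : 1 ≤ l := by
    rw [le_div_iff₀ hC0] at hl1
    linarith
  have hρ1 : 1 ≤ ρ := by
    rw [hρ]
    exact one_le_pow₀ (one_le_mul_of_one_le_of_one_le hC hl1')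
  set B : ℕ := ⌊(l / C) ^ 2⌋₊ with hBdef
  have hBle : (B : ℝ) ≤ (l / C) ^ 2 := Nat.floor_le (by positivity)
  have hsq : l / C ≤ (l / C) ^ 2 := le_self_pow₀ hl1 two_ne_zero
  have hBge : (l / C) ^ 2 ≤ 2 * (B : ℝ) := by
    have h1 : (l / C) ^ 2 < B + 1 := Nat.lt_floor_add_one _
    have h2 : (1 : ℝ) ≤ B := by
      have : 1 ≤ B := Nat.le_floor (by push_cast; linarith)
      exact_mod_cast this
    linarith
  have hBB : B₀ ≤ B := Nat.le_floor (by linarith)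
  set B' : ℕ := ⌈ρ⌉₊ with hB'def
  have hB'ge : ρ ≤ (B' : ℝ) := Nat.le_ceil _
  have hB'le : (B' : ℝ) ≤ 2 * ρ := by
    have : (B' : ℝ) < ρ + 1 := Nat.ceil_lt_add_one (by positivity)
    linarith
  have hρB : ρ ≤ 2 * C ^ 4 * B := by
    have h1 : ρ = C ^ 4 * (l / C) ^ 2 := by
      rw [hρ]
      field_simp
    rw [h1]
    have := mul_le_mul_of_nonneg_left hBge (by positivity : (0 : ℝ) ≤ C ^ 4)
    linarith
  have hB'B : (B' : ℝ) ≤ 4 * C ^ 4 * B := by linarith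
  have hBB' : B₀ ≤ B' := by
    have h1 : (B₀ : ℝ) ≤ B' := by
      have h2 : l / C ≤ ρ := by
        have h3 : l / C ≤ l := div_le_self hl0.le hC
        have h4 : l ≤ C * l := le_mul_of_one_le_left hl0.le hC
        have h5 : C * l ≤ (C * l) ^ 2 :=
          le_self_pow₀ (one_le_mul_of_one_le_of_one_le hC hl1') two_ne_zero
        linarith
      linarith
    exact_mod_cast h1
  -- lower bound for the family
  have hlow : c * (B : ℝ) ^ (5 * d) ≤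
      ({p : 𝓞 F × 𝓞 F | p ∈ RG r ∧ InFam N a b p}.ncard : ℝ) := by
    refine (hB u B hBB).1.trans ?_
    have : {p : 𝓞 F × 𝓞 F | Bd (p.1 : F) ((B : ℝ) ^ 2) ∧ Bd (p.2 : F) ((B : ℝ) ^ 3) ∧
        InFam N ((u : 𝓞 F) ^ 4 * a) ((u : 𝓞 F) ^ 6 * b) p}.ncard ≤
        {p : 𝓞 F × 𝓞 F | p ∈ RG r ∧ InFam N a b p}.ncard := by
      refine Set.ncard_le_ncard_of_injOn (um u⁻¹) ?_ (um_inj _).injOn
        (hfin.subset fun p hp => hp.1)
      rintro p ⟨h1, h2, h3⟩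
      exact ⟨rg_inv_box hr hC0 hl0 u (fun v => (hu v).1) B (Nat.cast_nonneg _) hBle p
        ⟨h1, h2⟩, infam_um' u h3⟩
    exact_mod_cast this
  refine ⟨?_, ?_⟩
  · refine le_trans ?_ hlow
    calc c / (2 * C ^ 2) ^ (5 * d) * l ^ (10 * d) = c * ((l / C) ^ 2 / 2) ^ (5 * d) := by
          have e : (l / C) ^ 2 / 2 = l ^ 2 / (2 * C ^ 2) := by
            field_simp
          rw [e, div_pow (l ^ 2), show 10 * d = 2 * (5 * d) by ring, pow_mul l 2]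
          field_simp
      _ ≤ c * (B : ℝ) ^ (5 * d) := by
          refine mul_le_mul_of_nonneg_left (pow_le_pow_left₀ (by positivity) ?_ _) hc.le
          linarith
  · -- the exceptional members
    have h1 : ({p : 𝓞 F × 𝓞 F | p ∈ RG r ∧ InFam N a b p ∧ ¬ Q p}.ncard : ℝ) ≤
        ε / (4 * C ^ 4) ^ (5 * d) * (c * (B' : ℝ) ^ (5 * d)) := by
      refine le_trans ?_ (hB u B' hBB').2
      have : {p : 𝓞 F × 𝓞 F | p ∈ RG r ∧ InFam N a b p ∧ ¬ Q p}.ncard ≤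
          {p : 𝓞 F × 𝓞 F | Bd (p.1 : F) ((B' : ℝ) ^ 2) ∧ Bd (p.2 : F) ((B' : ℝ) ^ 3) ∧
            InFam N ((u : 𝓞 F) ^ 4 * a) ((u : 𝓞 F) ^ 6 * b) p ∧ ¬ Q p}.ncard := by
        refine Set.ncard_le_ncard_of_injOn (um u) ?_ (um_inj _).injOn
          ((hbx B' (hρ1.trans hB'ge)).1.subset fun p hp => ⟨hp.1, hp.2.1⟩)
        rintro p ⟨h1, h2, h3⟩
        have h4 := bx_mono (by positivity) hB'ge
          (rg_box hr u (fun v => (hu v).2) p h1)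
        refine ⟨h4.1, h4.2, infam_um u h2, fun h5 => h3 ?_⟩
        have h6 := hQ u⁻¹ _ h5
        rwa [um_um] at h6
      exact_mod_cast this
    refine h1.trans ?_
    calc ε / (4 * C ^ 4) ^ (5 * d) * (c * (B' : ℝ) ^ (5 * d)) ≤
          ε / (4 * C ^ 4) ^ (5 * d) * (c * (4 * C ^ 4 * B) ^ (5 * d)) := by
          refine mul_le_mul_of_nonneg_left (mul_le_mul_of_nonneg_left
            (pow_le_pow_left₀ (Nat.cast_nonneg _) hB'B _) hc.le) (by positivity)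
      _ = ε * (c * (B : ℝ) ^ (5 * d)) := by
          have hD : (4 * C ^ 4) ^ (5 * d) ≠ 0 := by positivity
          rw [mul_pow (4 * C ^ 4) (B : ℝ) (5 * d)]
          generalize (4 * C ^ 4) ^ (5 * d) = D at hD ⊢
          field_simp
      _ ≤ ε * ({p : 𝓞 F × 𝓞 F | p ∈ RG r ∧ InFam N a b p}.ncard : ℝ) :=
          mul_le_mul_of_nonneg_left hlow hε.le

/-- the shell -/
theorem rg_shell (hS : S_SHL) (F : Type) [Field F] [NumberField F] : ∃ κ : ℝ, 0 < κ ∧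
    ∀ (N : ℕ) (η : ℝ), 0 < N → 0 < η → η ≤ 1 → ∃ L₀ : ℝ,
    ∀ (r : InfinitePlace F → ℝ) (l : ℝ), (∀ v, 0 < r v) →
    l ^ Module.finrank ℚ F = ∏ v, r v ^ v.mult → L₀ ≤ l → ∀ a b : 𝓞 F,
    ({p : 𝓞 F × 𝓞 F | p ∈ RG r ∧ p.1 - a ∈ sp F N ∧ p.2 - b ∈ sp F N ∧
      ∃ v : InfinitePlace F, (1 - η) * r v ^ 4 < v (p.1 : F) ∨ (1 - η) * r v ^ 6 < v (p.2 : F)}.ncard : ℝ) ≤
      κ * η * l ^ (10 * Module.finrank ℚ F) / ((N : ℝ) ^ Module.finrank ℚ F) ^ 2 := by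
  obtain ⟨κ, hκ, h⟩ := hS F
  set d : ℕ := Module.finrank ℚ F with hd
  have hd0 : 0 < d := Module.finrank_pos
  refine ⟨2 * κ ^ 2, by positivity, fun N η hN hη hη1 => ?_⟩
  obtain ⟨V₀, hV⟩ := h N η hN hη hη1
  refine ⟨max 1 V₀, fun r l hr hprod hl a b => ?_⟩
  have hl1 : 1 ≤ l := (le_max_left _ _).trans hl
  have hl0 : 0 < l := zero_lt_one.trans_le hl1
  have hlV : V₀ ≤ l := (le_max_right _ _).trans hl
  have p4 : ∏ v : InfinitePlace F, (r v ^ 4) ^ v.mult = l ^ (4 * d) := by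
    rw [show 4 * d = d * 4 by ring, pow_mul l, hprod, ← Finset.prod_pow]
    refine Finset.prod_congr rfl fun v _ => ?_
    rw [← pow_mul, ← pow_mul, mul_comm]
  have p6 : ∏ v : InfinitePlace F, (r v ^ 6) ^ v.mult = l ^ (6 * d) := by
    rw [show 6 * d = d * 6 by ring, pow_mul l, hprod, ← Finset.prod_pow]
    refine Finset.prod_congr rfl fun v _ => ?_
    rw [← pow_mul, ← pow_mul, mul_comm]
  obtain ⟨fa, ua, sa⟩ := hV (fun v => r v ^ 4) (fun v => pow_pos (hr v) 4) (by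
    rw [p4]
    exact hlV.trans (le_self_pow₀ hl1 (by omega))) a
  obtain ⟨fb, ub, sb⟩ := hV (fun v => r v ^ 6) (fun v => pow_pos (hr v) 6) (by
    rw [p6]
    exact hlV.trans (le_self_pow₀ hl1 (by omega))) b
  rw [p4] at ua sa
  rw [p6] at ub sb
  set A : Set (𝓞 F) := {x : 𝓞 F | x - a ∈ sp F N ∧ ∀ v : InfinitePlace F, v (x : F) ≤ r v ^ 4} with hA
  set A' : Set (𝓞 F) := {x : 𝓞 F | x - a ∈ sp F N ∧ (∀ v : InfinitePlace F, v (x : F) ≤ r v ^ 4) ∧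
      ∃ v : InfinitePlace F, (1 - η) * r v ^ 4 < v (x : F)} with hA'
  set B : Set (𝓞 F) := {x : 𝓞 F | x - b ∈ sp F N ∧ ∀ v : InfinitePlace F, v (x : F) ≤ r v ^ 6} with hB
  set B' : Set (𝓞 F) := {x : 𝓞 F | x - b ∈ sp F N ∧ (∀ v : InfinitePlace F, v (x : F) ≤ r v ^ 6) ∧
      ∃ v : InfinitePlace F, (1 - η) * r v ^ 6 < v (x : F)} with hB'
  have fA' : A'.Finite := fa.subset fun x hx => ⟨hx.1, hx.2.1⟩
  have fB' : B'.Finite := fb.subset fun x hx => ⟨hx.1, hx.2.1⟩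
  have hsub : {p : 𝓞 F × 𝓞 F | p ∈ RG r ∧ p.1 - a ∈ sp F N ∧ p.2 - b ∈ sp F N ∧
      ∃ v : InfinitePlace F, (1 - η) * r v ^ 4 < v (p.1 : F) ∨ (1 - η) * r v ^ 6 < v (p.2 : F)} ⊆
      (A' ×ˢ B) ∪ (A ×ˢ B') := by
    rintro p ⟨h1, h2, h3, v, h4 | h4⟩
    · exact Or.inl ⟨⟨h2, fun w => (h1 w).1, v, h4⟩, ⟨h3, fun w => (h1 w).2⟩⟩
    · exact Or.inr ⟨⟨h2, fun w => (h1 w).1⟩, ⟨h3, fun w => (h1 w).2, v, h4⟩⟩
  have hN0 : (0 : ℝ) < (N : ℝ) ^ d := by positivity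
  have hc1 : ((A' ×ˢ B).ncard : ℝ) ≤ (κ * η * l ^ (4 * d) / N ^ d) * (κ * l ^ (6 * d) / N ^ d) := by
    rw [Set.ncard_prod]
    push_cast
    exact mul_le_mul sa ub (Nat.cast_nonneg _) (by positivity)
  have hc2 : ((A ×ˢ B').ncard : ℝ) ≤ (κ * l ^ (4 * d) / N ^ d) * (κ * η * l ^ (6 * d) / N ^ d) := by
    rw [Set.ncard_prod]
    push_cast
    exact mul_le_mul ua sb (Nat.cast_nonneg _) (by positivity)
  have hle : ({p : 𝓞 F × 𝓞 F | p ∈ RG r ∧ p.1 - a ∈ sp F N ∧ p.2 - b ∈ sp F N ∧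
      ∃ v : InfinitePlace F, (1 - η) * r v ^ 4 < v (p.1 : F) ∨
        (1 - η) * r v ^ 6 < v (p.2 : F)}.ncard : ℝ) ≤
      ((A' ×ˢ B).ncard : ℝ) + ((A ×ˢ B').ncard : ℝ) := by
    have h1 := Set.ncard_le_ncard hsub ((fA'.prod fb).union (fa.prod fB'))
    have h2 := Set.ncard_union_le (A' ×ˢ B) (A ×ˢ B')
    exact_mod_cast h1.trans h2
  refine hle.trans ((add_le_add hc1 hc2).trans (le_of_eq ?_))
  rw [show 10 * d = 4 * d + 6 * d by ring, pow_add]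
  field_simp
  ring

theorem eta_bound {η : ℝ} (h0 : 0 < η) (h1 : η ≤ 1) (m : ℕ) :
    (1 - η) * ((1 + η / (3 * m + 1)) ^ m) ^ 3 ≤ 1 ∧ (1 - η) * ((1 + η / (3 * m + 1)) ^ m) ^ 2 ≤ 1 := by
  set x : ℝ := η / (3 * m + 1) with hx
  have hm : (0 : ℝ) ≤ m := Nat.cast_nonneg m
  have hx0 : 0 < x := by positivity
  have hx1 : x ≤ 1 := by
    rw [hx, div_le_one (by positivity)]
    linarith
  have h2 : (1 : ℝ) - η ≤ (1 - x) ^ (3 * m) := by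
    have h3 := one_add_mul_le_pow (a := -x) (by linarith) (3 * m)
    have h4 : (3 * (m : ℝ)) * x ≤ η := by
      rw [hx, mul_div_assoc', div_le_iff₀ (by positivity)]
      nlinarith
    have h5 : (1 + -x : ℝ) = 1 - x := by ring
    rw [h5] at h3
    push_cast at h3
    linarith
  have ht1 : 1 ≤ (1 + x) ^ m := one_le_pow₀ (by linarith)
  have h3 : (1 - η) * ((1 + x) ^ m) ^ 3 ≤ 1 := by
    calc (1 - η) * ((1 + x) ^ m) ^ 3 ≤ (1 - x) ^ (3 * m) * ((1 + x) ^ m) ^ 3 :=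
          mul_le_mul_of_nonneg_right h2 (by positivity)
      _ = (1 - x ^ 2) ^ (3 * m) := by
          rw [← pow_mul, mul_comm m 3, ← mul_pow]
          congr 1
          ring
      _ ≤ 1 := pow_le_one₀ (by nlinarith) (by nlinarith)
  refine ⟨h3, le_trans ?_ h3⟩
  exact mul_le_mul_of_nonneg_left (pow_le_pow_right₀ ht1 (by norm_num)) (by linarith)

theorem prod_scale {F : Type} [Field F] [NumberField F] {r : InfinitePlace F → ℝ} {l s : ℝ}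
    (h : l ^ Module.finrank ℚ F = ∏ v, r v ^ v.mult) :
    (l / s) ^ Module.finrank ℚ F = ∏ v : InfinitePlace F, (r v / s) ^ v.mult := by
  simp only [div_pow]
  rw [Finset.prod_div_distrib, ← h, Finset.prod_pow_eq_pow_sum, InfinitePlace.sum_mult_eq]

theorem rega : S_REGA := by
  intro hB5 hSH F _ _
  obtain ⟨W, c, hW, hc, hB⟩ := hB5 F
  obtain ⟨D, C₀, hD, hC₀, hG⟩ := hgtR F
  obtain ⟨K, hK, hup⟩ := rg_up F
  obtain ⟨κ, hκ, hsh⟩ := rg_shell hSH F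
  set d : ℕ := Module.finrank ℚ F with hd
  have hd0 : 0 < d := Module.finrank_pos
  refine ⟨W, fun ε hε => ?_⟩
  obtain ⟨m₀, hm₀⟩ := hB ε (ε / D) hε (by positivity)
  refine ⟨m₀, fun m hm => ?_⟩
  obtain ⟨n₀, hn₀⟩ := hm₀ m hm
  have hW' : (0 : ℝ) < W := by exact_mod_cast hW
  set η' : ℝ := min 1 (ε * c * ((W : ℝ) ^ d) ^ 2 / (κ * C₀)) with hη'
  have hη'0 : 0 < η' := lt_min one_pos (by positivity)
  have hη'1 : η' ≤ 1 := min_le_left _ _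
  have hη'2 : κ * η' * C₀ ≤ ε * c * ((W : ℝ) ^ d) ^ 2 := by
    have h1 : η' ≤ ε * c * ((W : ℝ) ^ d) ^ 2 / (κ * C₀) := min_le_right _ _
    rw [le_div_iff₀ (by positivity)] at h1
    linarith
  obtain ⟨hb3, hb2⟩ := eta_bound hη'0 hη'1 m
  have hη0 : 0 < η' / (3 * m + 1) := by positivity
  refine ⟨η' / (3 * m + 1), n₀, hη0, ?_⟩
  set η : ℝ := η' / (3 * m + 1) with hη
  intro S 𝔮 h P hS hn hq
  obtain ⟨a, b, hOk, hu⟩ := hn₀ S 𝔮 h P hS hn hq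
  have hN : 0 < W * ∏ q ∈ S, q := hOk.1
  refine ⟨W * ∏ q ∈ S, q, a, b, hOk, fun Q hQ => ?_⟩
  have hprod0 : 0 < ∏ q ∈ S, q := Nat.pos_of_mul_pos_left hN
  have hPn : (0 : ℝ) < (((∏ q ∈ S, q ^ 2) ^ d : ℕ) : ℝ) := by
    rw [Finset.prod_pow]
    positivity
  have hNd : (((W * ∏ q ∈ S, q : ℕ) : ℝ) ^ d) ^ 2 =
      ((W : ℝ) ^ d) ^ 2 * (((∏ q ∈ S, q ^ 2) ^ d : ℕ) : ℝ) := by
    rw [Finset.prod_pow]
    push_cast
    ring
  set Pn : ℝ := (((∏ q ∈ S, q ^ 2) ^ d : ℕ) : ℝ) with hPndef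
  obtain ⟨L₁, hL₁⟩ := hG (W * ∏ q ∈ S, q) a b (c / Pn) ε (LawQ S m₀ m ε) hN (by positivity) hε (by
    rintro u p ⟨e, h1, h2⟩
    refine ⟨e, fun J hJ => ?_, h2⟩
    rw [twp_um]
    exact gd_um u _ _ (h1 J hJ)) (by
    intro u
    obtain ⟨B₀, hB₀⟩ := hu u
    refine ⟨B₀, fun B hBB => ?_⟩
    obtain ⟨h1, h2⟩ := hB₀ B hBB
    constructor
    · rw [div_mul_eq_mul_div, div_le_iff₀ hPn]
      linarith
    · have e : ε / D * (c / Pn * (B : ℝ) ^ (5 * Module.finrank ℚ F)) =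
          (ε / D * (c * (B : ℝ) ^ (5 * Module.finrank ℚ F))) / Pn := by ring
      rw [e, le_div_iff₀ hPn]
      linarith)
  obtain ⟨L₂, hL₂⟩ := hsh (W * ∏ q ∈ S, q) η' hN hη'0 hη'1
  -- the radii
  set N' : ℕ := Fintype.card (InfinitePlace F) with hN'
  have hN0 : 0 < N' := Fintype.card_pos
  set e : ℝ := N' / (12 * d) with he
  have he0 : 0 < e := by positivity
  have hsQ : 0 < √Q := Real.sqrt_pos.2 hQ
  have hlim : Filter.Tendsto (fun Y : ℝ => Y ^ e) Filter.atTop Filter.atTop :=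
    tendsto_rpow_atTop he0
  obtain ⟨Y₁, hY₁⟩ := Filter.eventually_atTop.1
    (hlim.eventually_ge_atTop (max (L₁ * √Q) (L₂ * √Q)))
  refine ⟨c / Pn / C₀ / (Q ^ (5 * d) * K), max 1 Y₁, by positivity,
    fun Y => ⟨hle_fin Y, hr_fin Y hQ, ?_⟩⟩
  intro hY
  have hY1 : 1 ≤ Y := (le_max_left _ _).trans hY
  have hY0 : 0 < Y := zero_lt_one.trans_le hY1
  set l : ℝ := Y ^ e with hl
  have hl0 : 0 < l := Real.rpow_pos_of_pos hY0 _
  have hl1 : 1 ≤ l := Real.one_le_rpow hY1 he0.le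
  have hlL := hY₁ Y ((le_max_right _ _).trans hY)
  have hlL1 : L₁ ≤ l / √Q := by
    rw [le_div_iff₀ hsQ]
    exact (le_max_left _ _).trans hlL
  have hlL2 : L₂ ≤ l / √Q := by
    rw [le_div_iff₀ hsQ]
    exact (le_max_right _ _).trans hlL
  have hprod : l ^ d = ∏ v : InfinitePlace F, Rv Y v ^ v.mult := by
    rw [Finset.prod_congr rfl fun v _ => Rv_pow_mult hY0 v, Finset.prod_const, Finset.card_univ,
      ← hN', hl, ← Real.rpow_natCast, ← Real.rpow_mul hY0.le, ← Real.rpow_natCast,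
      ← Real.rpow_mul hY0.le]
    congr 1
    rw [he]
    field_simp
  have hprodQ : (l / √Q) ^ d = ∏ v : InfinitePlace F, (Rv Y v / √Q) ^ v.mult :=
    prod_scale hprod
  have hrQ : ∀ v : InfinitePlace F, 0 < Rv Y v / √Q := fun v => div_pos (Rv_pos hY0 v) hsQ
  obtain ⟨hlow, hexc⟩ := hL₁ (fun v => Rv Y v / √Q) (l / √Q) hrQ hprodQ hlL1
  have hshell := hL₂ (fun v => Rv Y v / √Q) (l / √Q) hrQ hprodQ hlL2 a b
  have hfinQ := rg_fin hrQ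
  have eS : {p : 𝓞 F × 𝓞 F | HR Y Q p ∧ InFam (W * ∏ q ∈ S, q) a b p} =
      {p : 𝓞 F × 𝓞 F | p ∈ RG (fun v => Rv Y v / √Q) ∧ InFam (W * ∏ q ∈ S, q) a b p} := by
    ext p
    simp only [Set.mem_setOf_eq, hr_iff hY0 hQ]
  have eS2 : {p : 𝓞 F × 𝓞 F | HR Y Q p ∧ InFam (W * ∏ q ∈ S, q) a b p ∧ ¬ LawQ S m₀ m ε p} =
      {p : 𝓞 F × 𝓞 F | p ∈ RG (fun v => Rv Y v / √Q) ∧ InFam (W * ∏ q ∈ S, q) a b p ∧
        ¬ LawQ S m₀ m ε p} := by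
    ext p
    simp only [Set.mem_setOf_eq, hr_iff hY0 hQ]
  have hq10 : (l / √Q) ^ (10 * d) = l ^ (10 * d) / Q ^ (5 * d) := by
    rw [div_pow]
    congr 1
    rw [show 10 * d = 2 * (5 * d) by ring, pow_mul, Real.sq_sqrt hQ.le]
  refine ⟨?_, ?_, ?_, ?_⟩
  · -- positivity
    rw [Set.ncard_pos ((hle_fin Y).subset fun p hp => hp.1)]
    refine ⟨(0, 1), ?_, ?_⟩
    · rw [hle_iff hY0]
      intro v
      have h1 : 1 ≤ Rv Y v := Real.one_le_rpow hY1 (by positivity)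
      constructor
      · simp only [map_zero]
        positivity
      · simp only [map_one]
        exact one_le_pow₀ h1
    · simp
  · -- the proportion
    rw [eS]
    refine le_trans ?_ hlow
    have h1 := hup (Rv Y) l (Rv_pos hY0) hprod hl1
    have h2 : ({p : 𝓞 F × 𝓞 F | Hle Y p ∧ 4 * p.1 ^ 3 + 27 * p.2 ^ 2 ≠ 0}.ncard : ℝ) ≤
        K * l ^ (10 * d) := by
      refine le_trans ?_ h1
      have : {p : 𝓞 F × 𝓞 F | Hle Y p ∧ 4 * p.1 ^ 3 + 27 * p.2 ^ 2 ≠ 0}.ncard ≤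
          (RG (F := F) (Rv Y)).ncard :=
        Set.ncard_le_ncard (fun p hp => (hle_iff hY0 p).1 hp.1) (rg_fin (Rv_pos hY0))
      exact_mod_cast this
    calc c / Pn / C₀ / (Q ^ (5 * d) * K) *
          ({p : 𝓞 F × 𝓞 F | Hle Y p ∧ 4 * p.1 ^ 3 + 27 * p.2 ^ 2 ≠ 0}.ncard : ℝ) ≤
          c / Pn / C₀ / (Q ^ (5 * d) * K) * (K * l ^ (10 * d)) :=
          mul_le_mul_of_nonneg_left h2 (by positivity)
      _ = c / Pn / C₀ * (l / √Q) ^ (10 * d) := by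
          rw [hq10]
          field_simp
  · -- the shell
    rw [eS]
    have hsub : {p : 𝓞 F × 𝓞 F | HR Y Q p ∧ InFam (W * ∏ q ∈ S, q) a b p ∧
        ¬ HR Y ((1 + η) ^ m * Q) p} ⊆
        {p : 𝓞 F × 𝓞 F | p ∈ RG (fun v => Rv Y v / √Q) ∧ p.1 - a ∈ sp F (W * ∏ q ∈ S, q) ∧
          p.2 - b ∈ sp F (W * ∏ q ∈ S, q) ∧ ∃ v : InfinitePlace F,
            (1 - η') * (Rv Y v / √Q) ^ 4 < v (p.1 : F) ∨
            (1 - η') * (Rv Y v / √Q) ^ 6 < v (p.2 : F)} := by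
      rintro p ⟨h1, h2, h3⟩
      refine ⟨(hr_iff hY0 hQ p).1 h1, h2.1, h2.2.1, ?_⟩
      have ht : 0 < (1 + η) ^ m := by positivity
      have htQ : 0 < (1 + η) ^ m * Q := by positivity
      by_contra hcon
      push Not at hcon
      refine h3 ((hr_iff hY0 htQ p).2 fun v => ?_)
      obtain ⟨h4, h5⟩ := hcon v
      have hsr : √((1 + η) ^ m * Q) = √((1 + η) ^ m) * √Q := Real.sqrt_mul ht.le _
      have e4 : (Rv Y v / √((1 + η) ^ m * Q)) ^ 4 = (Rv Y v / √Q) ^ 4 / ((1 + η) ^ m) ^ 2 := by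
        rw [hsr, mul_comm, ← div_div, div_pow _ (√((1 + η) ^ m)),
          show √((1 + η) ^ m) ^ 4 = (√((1 + η) ^ m) ^ 2) ^ 2 by ring, Real.sq_sqrt ht.le]
      have e6 : (Rv Y v / √((1 + η) ^ m * Q)) ^ 6 = (Rv Y v / √Q) ^ 6 / ((1 + η) ^ m) ^ 3 := by
        rw [hsr, mul_comm, ← div_div, div_pow _ (√((1 + η) ^ m)),
          show √((1 + η) ^ m) ^ 6 = (√((1 + η) ^ m) ^ 2) ^ 3 by ring, Real.sq_sqrt ht.le]
      have hr4 := pow_pos (hrQ v) 4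
      have hr6 := pow_pos (hrQ v) 6
      constructor
      · show v (p.1 : F) ≤ (Rv Y v / √((1 + η) ^ m * Q)) ^ 4
        rw [e4, le_div_iff₀ (by positivity)]
        calc v (p.1 : F) * ((1 + η) ^ m) ^ 2 ≤
              ((1 - η') * (Rv Y v / √Q) ^ 4) * ((1 + η) ^ m) ^ 2 :=
              mul_le_mul_of_nonneg_right h4 (by positivity)
          _ = ((1 - η') * ((1 + η) ^ m) ^ 2) * (Rv Y v / √Q) ^ 4 := by ring
          _ ≤ 1 * (Rv Y v / √Q) ^ 4 := mul_le_mul_of_nonneg_right hb2 hr4.le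
          _ = _ := one_mul _
      · show v (p.2 : F) ≤ (Rv Y v / √((1 + η) ^ m * Q)) ^ 6
        rw [e6, le_div_iff₀ (by positivity)]
        calc v (p.2 : F) * ((1 + η) ^ m) ^ 3 ≤
              ((1 - η') * (Rv Y v / √Q) ^ 6) * ((1 + η) ^ m) ^ 3 :=
              mul_le_mul_of_nonneg_right h5 (by positivity)
          _ = ((1 - η') * ((1 + η) ^ m) ^ 3) * (Rv Y v / √Q) ^ 6 := by ring
          _ ≤ 1 * (Rv Y v / √Q) ^ 6 := mul_le_mul_of_nonneg_right hb3 hr6.le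
          _ = _ := one_mul _
    have h1 : ({p : 𝓞 F × 𝓞 F | HR Y Q p ∧ InFam (W * ∏ q ∈ S, q) a b p ∧
        ¬ HR Y ((1 + η) ^ m * Q) p}.ncard : ℝ) ≤
        κ * η' * (l / √Q) ^ (10 * d) / (((W * ∏ q ∈ S, q : ℕ) : ℝ) ^ d) ^ 2 := by
      refine le_trans ?_ hshell
      exact_mod_cast Set.ncard_le_ncard hsub (hfinQ.subset fun p hp => hp.1)
    refine h1.trans ?_
    rw [hNd]
    calc κ * η' * (l / √Q) ^ (10 * d) / (((W : ℝ) ^ d) ^ 2 * Pn) =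
          (κ * η' * C₀) * ((l / √Q) ^ (10 * d) / (((W : ℝ) ^ d) ^ 2 * Pn * C₀)) := by
          field_simp
      _ ≤ (ε * c * ((W : ℝ) ^ d) ^ 2) * ((l / √Q) ^ (10 * d) / (((W : ℝ) ^ d) ^ 2 * Pn * C₀)) :=
          mul_le_mul_of_nonneg_right hη'2 (by positivity)
      _ = ε * (c / Pn / C₀ * (l / √Q) ^ (10 * d)) := by
          field_simp
      _ ≤ _ := mul_le_mul_of_nonneg_left hlow hε.le
  · rw [eS, eS2]
    exact hexc

end Pool.Agent.H71PR
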