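import Pool.Agent.H71PR.Hgt3
import Pool.Agent.H68K.PR.StmQ

/-!
# From balanced boxes to the height (S_HGT4)
-/

set_option autoImplicit false
set_option linter.all false

open Polynomial NumberField NumberField.InfinitePlace
open Pool.Agent.N783.PF (Bd sp Dp)
open Pool.Agent.H68K.PR
open Pool.Agent.H64.PR
open scoped Classical

namespace Pool.Agent.H71PR

theorem lawq_um {F : Type} [Field F] [NumberField F] (u : (𝓞 F)ˣ) {S : Finset ℕ} {m₀ m : ℕ}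
    {ε : ℝ} {p : 𝓞 F × 𝓞 F} (h : LawQ S m₀ m ε p) : LawQ S m₀ m ε (um u p) := by
  obtain ⟨e, h1, h2⟩ := h
  refine ⟨e, fun J hJ => ?_, h2⟩
  rw [twp_um]
  exact gd_um u _ _ (h1 J hJ)

theorem hgt4 : S_HGT4 := by
  intro hB3 F _ _ ε hε
  obtain ⟨C, hC, hU⟩ := unb F
  obtain ⟨K, hK, hbx⟩ := bx_fin F
  have hC0 : 0 < C := zero_lt_one.trans_le hC
  set d : ℕ := Module.finrank ℚ F with hd
  have hd0 : 0 < d := Module.finrank_pos
  set N' : ℕ := Fintype.card (InfinitePlace F) with hN'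
  have hN0 : 0 < N' := Fintype.card_pos
  set e : ℝ := N' / (12 * d) with he
  have he0 : 0 < e := by positivity
  obtain ⟨m₀, hm₀⟩ := hB3 F ε (ε / (4 * C ^ 4) ^ (5 * d)) hε (by positivity)
  refine ⟨m₀, fun m hm => ?_⟩
  obtain ⟨S, N, a, b, hmS, hN, hOk, c, hc, hc1⟩ := hm₀ m hm
  obtain ⟨B₀, hB⟩ := unif (F := F) hN (fun u B =>
    c * (B : ℝ) ^ (5 * Module.finrank ℚ F) ≤
      ({p : 𝓞 F × 𝓞 F | Bd (p.1 : F) ((B : ℝ) ^ 2) ∧ Bd (p.2 : F) ((B : ℝ) ^ 3) ∧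
        InFam N ((u : 𝓞 F) ^ 4 * a) ((u : 𝓞 F) ^ 6 * b) p}.ncard : ℝ) ∧
    ({p : 𝓞 F × 𝓞 F | Bd (p.1 : F) ((B : ℝ) ^ 2) ∧ Bd (p.2 : F) ((B : ℝ) ^ 3) ∧
        InFam N ((u : 𝓞 F) ^ 4 * a) ((u : 𝓞 F) ^ 6 * b) p ∧ ¬ LawQ S m₀ m ε p}.ncard : ℝ) ≤
      ε / (4 * C ^ 4) ^ (5 * d) * (c * (B : ℝ) ^ (5 * Module.finrank ℚ F))) (by
    intro u w huw B h
    have e1 : ∀ p, InFam N ((u : 𝓞 F) ^ 4 * a) ((u : 𝓞 F) ^ 6 * b) p ↔
        InFam N ((w : 𝓞 F) ^ 4 * a) ((w : 𝓞 F) ^ 6 * b) p :=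
      fun p => ⟨infam_congr huw, infam_congr huw.symm⟩
    simpa only [e1] using h) hc1
  rw [← hd] at hB
  have hlim : Filter.Tendsto (fun Y : ℝ => Y ^ e) Filter.atTop Filter.atTop :=
    tendsto_rpow_atTop he0
  obtain ⟨Y₁, hY₁⟩ := Filter.eventually_atTop.1
    (hlim.eventually_ge_atTop (C * (B₀ + 1)))
  refine ⟨S, N, a, b, hmS, hN, hOk, c / (K * (2 * C ^ 4) ^ (5 * d)), by positivity,
    max 1 Y₁, fun Y => ⟨hle_fin Y, ?_⟩⟩
  intro hY
  have hY1 : 1 ≤ Y := (le_max_left _ _).trans hY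
  have hY0 : 0 < Y := zero_lt_one.trans_le hY1
  set l : ℝ := Y ^ e with hl
  have hl0 : 0 < l := Real.rpow_pos_of_pos hY0 _
  have hlB : C * (B₀ + 1) ≤ l := hY₁ Y ((le_max_right _ _).trans hY)
  have hprod : l ^ d = ∏ v : InfinitePlace F, Rv Y v ^ v.mult := by
    rw [Finset.prod_congr rfl fun v _ => Rv_pow_mult hY0 v, Finset.prod_const, Finset.card_univ,
      ← hN', hl, ← Real.rpow_natCast, ← Real.rpow_mul hY0.le, ← Real.rpow_natCast,
      ← Real.rpow_mul hY0.le]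
    congr 1
    rw [he]
    field_simp
  obtain ⟨u, hu⟩ := hU (Rv Y) (Rv_pos hY0) l hl0 hprod
  -- the sizes
  set ρ : ℝ := (C * l) ^ 2 with hρ
  have hl1 : 1 ≤ l / C := by
    rw [le_div_iff₀ hC0]
    nlinarith [Nat.cast_nonneg (α := ℝ) B₀]
  have hlB' : (B₀ : ℝ) + 1 ≤ l / C := by
    rw [le_div_iff₀ hC0]
    linarith
  have hl1' : 1 ≤ l := by
    rw [le_div_iff₀ hC0] at hl1
    linarith
  have hρ1 : 1 ≤ ρ := by
    rw [hρ]
    exact one_le_pow₀ (one_le_mul_of_one_le_of_one_le hC hl1')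
  set B : ℕ := ⌊(l / C) ^ 2⌋₊ with hBdef
  have hBle : (B : ℝ) ≤ (l / C) ^ 2 := Nat.floor_le (by positivity)
  have hsq : l / C ≤ (l / C) ^ 2 := le_self_pow₀ hl1 two_ne_zero
  have hBge : (l / C) ^ 2 ≤ 2 * (B : ℝ) := by
    have h1 : (l / C) ^ 2 < B + 1 := Nat.lt_floor_add_one _
    have h2 : (1 : ℝ) ≤ B := by
      have : 1 ≤ B := Nat.le_floor (by push_cast; linarith)
      exact_mod_cast this
    linarith
  have hBB : B₀ ≤ B := Nat.le_floor (by linarith)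
  set B' : ℕ := ⌈ρ⌉₊ with hB'def
  have hB'ge : ρ ≤ (B' : ℝ) := Nat.le_ceil _
  have hB'le : (B' : ℝ) ≤ 2 * ρ := by
    have : (B' : ℝ) < ρ + 1 := Nat.ceil_lt_add_one (by positivity)
    linarith
  have hρB : ρ ≤ 2 * C ^ 4 * B := by
    have h1 : ρ = C ^ 4 * (l / C) ^ 2 := by
      rw [hρ]
      field_simp
    rw [h1]
    have := mul_le_mul_of_nonneg_left hBge (by positivity : (0 : ℝ) ≤ C ^ 4)
    linarith
  have hB'B : (B' : ℝ) ≤ 4 * C ^ 4 * B := by linarith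
  have hBB' : B₀ ≤ B' := by
    have h1 : (B₀ : ℝ) ≤ B' := by
      have h2 : l / C ≤ ρ := by
        have h3 : l / C ≤ l := div_le_self hl0.le hC
        have h4 : l ≤ C * l := le_mul_of_one_le_left hl0.le hC
        have h5 : C * l ≤ (C * l) ^ 2 :=
          le_self_pow₀ (one_le_mul_of_one_le_of_one_le hC hl1') two_ne_zero
        linarith
      linarith
    exact_mod_cast h1
  -- lower bound for the family
  have hlow : c * (B : ℝ) ^ (5 * d) ≤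
      ({p : 𝓞 F × 𝓞 F | Hle Y p ∧ InFam N a b p}.ncard : ℝ) := by
    refine (hB u B hBB).1.trans ?_
    have : {p : 𝓞 F × 𝓞 F | Bd (p.1 : F) ((B : ℝ) ^ 2) ∧ Bd (p.2 : F) ((B : ℝ) ^ 3) ∧
        InFam N ((u : 𝓞 F) ^ 4 * a) ((u : 𝓞 F) ^ 6 * b) p}.ncard ≤
        {p : 𝓞 F × 𝓞 F | Hle Y p ∧ InFam N a b p}.ncard := by
      refine Set.ncard_le_ncard_of_injOn (um u⁻¹) ?_ (um_inj _).injOn
        ((hle_fin Y).subset fun p hp => hp.1)
      rintro p ⟨h1, h2, h3⟩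
      exact ⟨map_inv_box hY0 hC0 hl0 u (fun v => (hu v).1) B (Nat.cast_nonneg _) hBle p
        ⟨h1, h2⟩, infam_um' u h3⟩
    exact_mod_cast this
  refine ⟨?_, ?_, ?_⟩
  · -- positivity
    rw [Set.ncard_pos ((hle_fin Y).subset fun p hp => hp.1)]
    refine ⟨(0, 1), ?_, ?_⟩
    · rw [hle_iff hY0]
      intro v
      have h1 : 1 ≤ Rv Y v := Real.one_le_rpow hY1 (by positivity)
      constructor
      · simp only [map_zero]
        positivity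
      · simp only [map_one]
        exact one_le_pow₀ h1
    · simp
  · -- the proportion
    have hup : ({p : 𝓞 F × 𝓞 F | Hle Y p ∧ 4 * p.1 ^ 3 + 27 * p.2 ^ 2 ≠ 0}.ncard : ℝ) ≤
        K * ρ ^ (5 * d) := by
      refine le_trans ?_ (hbx ρ hρ1).2
      have : {p : 𝓞 F × 𝓞 F | Hle Y p ∧ 4 * p.1 ^ 3 + 27 * p.2 ^ 2 ≠ 0}.ncard ≤
          (bx F ρ).ncard :=
        Set.ncard_le_ncard_of_injOn (um u)
          (fun p hp => map_box hY0 hC0 hl0 u (fun v => (hu v).2) p hp.1)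
          (um_inj u).injOn (hbx ρ hρ1).1
      exact_mod_cast this
    refine le_trans ?_ hlow
    calc c / (K * (2 * C ^ 4) ^ (5 * d)) *
          ({p : 𝓞 F × 𝓞 F | Hle Y p ∧ 4 * p.1 ^ 3 + 27 * p.2 ^ 2 ≠ 0}.ncard : ℝ) ≤
          c / (K * (2 * C ^ 4) ^ (5 * d)) * (K * ρ ^ (5 * d)) :=
          mul_le_mul_of_nonneg_left hup (by positivity)
      _ = c * (ρ / (2 * C ^ 4)) ^ (5 * d) := by
          rw [div_pow]
          field_simp
      _ ≤ c * (B : ℝ) ^ (5 * d) := by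
          refine mul_le_mul_of_nonneg_left (pow_le_pow_left₀ (by positivity) ?_ _) hc.le
          rw [div_le_iff₀ (by positivity)]
          linarith
  · -- the exceptional members
    have h1 : ({p : 𝓞 F × 𝓞 F | Hle Y p ∧ InFam N a b p ∧ ¬ LawQ S m₀ m ε p}.ncard : ℝ) ≤
        ε / (4 * C ^ 4) ^ (5 * d) * (c * (B' : ℝ) ^ (5 * d)) := by
      refine le_trans ?_ (hB u B' hBB').2
      have : {p : 𝓞 F × 𝓞 F | Hle Y p ∧ InFam N a b p ∧ ¬ LawQ S m₀ m ε p}.ncard ≤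
          {p : 𝓞 F × 𝓞 F | Bd (p.1 : F) ((B' : ℝ) ^ 2) ∧ Bd (p.2 : F) ((B' : ℝ) ^ 3) ∧
            InFam N ((u : 𝓞 F) ^ 4 * a) ((u : 𝓞 F) ^ 6 * b) p ∧ ¬ LawQ S m₀ m ε p}.ncard := by
        refine Set.ncard_le_ncard_of_injOn (um u) ?_ (um_inj _).injOn
          ((hbx B' (hρ1.trans hB'ge)).1.subset fun p hp => ⟨hp.1, hp.2.1⟩)
        rintro p ⟨h1, h2, h3⟩
        have h4 := bx_mono (by positivity) hB'ge
          (map_box hY0 hC0 hl0 u (fun v => (hu v).2) p h1)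
        refine ⟨h4.1, h4.2, infam_um u h2, fun h5 => h3 ?_⟩
        have h6 := lawq_um u⁻¹ h5
        rwa [um_um] at h6
      exact_mod_cast this
    refine h1.trans ?_
    calc ε / (4 * C ^ 4) ^ (5 * d) * (c * (B' : ℝ) ^ (5 * d)) ≤
          ε / (4 * C ^ 4) ^ (5 * d) * (c * (4 * C ^ 4 * B) ^ (5 * d)) := by
          refine mul_le_mul_of_nonneg_left (mul_le_mul_of_nonneg_left
            (pow_le_pow_left₀ (Nat.cast_nonneg _) hB'B _) hc.le) (by positivity)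
      _ = ε * (c * (B : ℝ) ^ (5 * d)) := by
          have hD : (4 * C ^ 4) ^ (5 * d) ≠ 0 := by positivity
          rw [mul_pow (4 * C ^ 4) (B : ℝ) (5 * d)]
          generalize (4 * C ^ 4) ^ (5 * d) = D at hD ⊢
          field_simp
      _ ≤ ε * ({p : 𝓞 F × 𝓞 F | Hle Y p ∧ InFam N a b p}.ncard : ℝ) :=
          mul_le_mul_of_nonneg_left hlow hε.le

end Pool.Agent.H71PR
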